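import Mathlib
import Pool.Agent.MP_de7343_al.Defs

-- part MP_de7343_al.Coh
section

/-!
Homological algebra for discrete modules over a compact group: a four-term exact sequence
`0 → A → I₀ → I₁ → I₂ → 0` with relatively injective `I₀ I₁ I₂` kills `Hⁿ(G, A)` for `n ≥ 3`.
-/

namespace Pool.Agent.MP_de7343_al

open CategoryTheory TopRep ContRepresentation

universe u

theorem discreteC {X D : Type*} [TopologicalSpace X] [CompactSpace X] [TopologicalSpace D]
    [DiscreteTopology D] : DiscreteTopology C(X, D) := by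
  rw [discreteTopology_iff_isOpen_singleton]
  intro φ
  have hfin : (Set.range φ).Finite := (isCompact_range φ.continuous).finite_of_discrete
  have : ({φ} : Set C(X, D)) =
      ⋂ d ∈ Set.range φ, {f : C(X, D) | Set.MapsTo f (φ ⁻¹' {d}) {d}} := by
    ext f
    simp only [Set.mem_singleton_iff, Set.mem_iInter, Set.mem_ofPred_eq]
    constructor
    · rintro rfl d _ x hx
      exact hx
    · intro h
      ext x
      exact h (φ x) ⟨x, rfl⟩ (show x ∈ φ ⁻¹' {φ x} from rfl)
  rw [this]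
  refine hfin.isOpen_biInter fun d _ => ?_
  exact ContinuousMap.isOpen_setOfPred_mapsTo
    ((isClosed_discrete _).preimage φ.continuous).isCompact (isOpen_discrete _)

variable {k : Type} [Ring k] [TopologicalSpace k]
  {G : Type u} [Group G] [TopologicalSpace G] [IsTopologicalGroup G]

/-- discrete module with continuous action -/
structure Good (X : TopRep.{u} k G) : Prop where
  disc : DiscreteTopology X
  cont : Continuous (fun x : G × X => X.ρ x.1 x.2)

theorem Good.coind [CompactSpace G] {X : TopRep.{u} k G} (h : Good X) : Good X.coind₁ := by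
  have := h.disc
  have hd : DiscreteTopology C(G, X) := discreteC
  refine ⟨hd, ?_⟩
  change Continuous (fun x : G × C(G, X) => X.ρ.coind₁ x.1 x.2)
  refine ContinuousMap.continuous_of_continuous_uncurry _ ?_
  change Continuous (fun y : (G × C(G, X)) × G => X.ρ y.1.1 (y.1.2 (y.1.1⁻¹ * y.2)))
  have h1 : Continuous (fun y : (G × C(G, X)) × G => y.1.2 (y.1.1⁻¹ * y.2)) := by fun_prop
  exact h.cont.comp (f := fun y : (G × C(G, X)) × G => (y.1.1, y.1.2 (y.1.1⁻¹ * y.2)))
    (Continuous.prodMk (by fun_prop) h1)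

theorem Good.res [CompactSpace G] {X : TopRep.{u} k G} (h : Good X) :
    ∀ n, Good (resolutionX.{0, u, u} X n)
  | 0 => h
  | n + 1 => (Good.res h n).coind

/-- the maps induced on the standard resolutions -/
def rmap {X Y : TopRep.{u} k G} (f : X ⟶ Y) : (n : ℕ) → (resolutionX X n ⟶ resolutionX Y n)
  | 0 => f
  | n + 1 => (coind₁Functor k G).map (rmap f n)

theorem rmap_succ_apply {X Y : TopRep.{u} k G} (f : X ⟶ Y) (n : ℕ)
    (a : resolutionX X (n + 1)) (x : G) :
    ((rmap f (n + 1)).hom a : C(G, resolutionX Y n)) x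
      = (rmap f n).hom ((a : C(G, resolutionX X n)) x) := rfl

theorem d_succ_apply (X : TopRep.{u} k G) (n : ℕ) (a : resolutionX X (n + 1)) (x : G) :
    ((d X (n + 1)).hom a : C(G, resolutionX X (n + 1))) x
      = a - (d X n).hom ((a : C(G, resolutionX X n)) x) := rfl

theorem d_zero_apply (X : TopRep.{u} k G) (a : resolutionX X 0) (x : G) :
    ((d X 0).hom a : C(G, resolutionX X 0)) x = a := rfl

theorem rmap_d {X Y : TopRep.{u} k G} (f : X ⟶ Y) : ∀ (n : ℕ) (a : resolutionX X n),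
    (d Y n).hom ((rmap f n).hom a) = (rmap f (n + 1)).hom ((d X n).hom a)
  | 0, a => by
    refine ContinuousMap.ext fun x => ?_
    rw [d_zero_apply, rmap_succ_apply, d_zero_apply]
  | n + 1, a => by
    refine ContinuousMap.ext fun x => ?_
    rw [d_succ_apply, rmap_succ_apply, rmap_succ_apply, d_succ_apply, map_sub, rmap_d f n]

theorem d_d (X : TopRep.{u} k G) (n : ℕ) (a : resolutionX X n) :
    (d X (n + 1)).hom ((d X n).hom a) = 0 := by
  exact congrArg (fun t => (TopRep.Hom.hom t) a) (d_comp_d X n)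

/-- invariant elements -/
def Inv (X : TopRep.{u} k G) (a : X) : Prop := ∀ g, X.ρ g a = a

omit [TopologicalSpace G] [IsTopologicalGroup G] in
theorem Inv.map {X Y : TopRep.{u} k G} (f : X ⟶ Y) {a : X} (h : Inv X a) : Inv Y (f.hom a) :=
  fun g => by rw [← TopRep.hom_comm_apply, h g]

omit [TopologicalSpace G] [IsTopologicalGroup G] in
theorem Inv.sub {X : TopRep.{u} k G} {a b : X} (h : Inv X a) (h' : Inv X b) : Inv X (a - b) :=
  fun g => by rw [map_sub, h g, h' g]

theorem rmap_exact [CompactSpace G] {X Y Z : TopRep.{u} k G} (hY : Good Y)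
    (f : X ⟶ Y) (g : Y ⟶ Z) (h : ∀ b, g.hom b = 0 → ∃ a, f.hom a = b) :
    ∀ (n : ℕ) (b : resolutionX Y n), (rmap g n).hom b = 0 → ∃ a, (rmap f n).hom a = b
  | 0, b => h b
  | n + 1, b => by
    intro hb
    classical
    have := (hY.res n).disc
    have ih := rmap_exact hY f g h n
    let σ : resolutionX Y n → resolutionX X n := fun y =>
      if hy : (rmap g n).hom y = 0 then (ih y hy).choose else 0
    have hσ : Continuous σ := continuous_of_discreteTopology
    refine ⟨(⟨fun x => σ ((b : C(G, resolutionX Y n)) x),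
      hσ.comp (b : C(G, resolutionX Y n)).continuous⟩ : C(G, resolutionX X n)), ?_⟩
    refine ContinuousMap.ext fun x => ?_
    have hx : (rmap g n).hom ((b : C(G, resolutionX Y n)) x) = 0 := by
      rw [← rmap_succ_apply, hb]; rfl
    rw [rmap_succ_apply]
    change (rmap f n).hom (σ _) = _
    simp only [σ, dif_pos hx]
    exact (ih _ hx).choose_spec

theorem rmap_surj [CompactSpace G] {X Y : TopRep.{u} k G} (hY : Good Y)
    (f : X ⟶ Y) (h : ∀ b, ∃ a, f.hom a = b) :
    ∀ (n : ℕ) (b : resolutionX Y n), ∃ a, (rmap f n).hom a = b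
  | 0, b => h b
  | n + 1, b => by
    have := (hY.res n).disc
    have ih := rmap_surj hY f h n
    choose σ hσ using ih
    have hσc : Continuous σ := continuous_of_discreteTopology
    refine ⟨(⟨fun x => σ ((b : C(G, resolutionX Y n)) x),
      hσc.comp (b : C(G, resolutionX Y n)).continuous⟩ : C(G, resolutionX X n)), ?_⟩
    refine ContinuousMap.ext fun x => ?_
    rw [rmap_succ_apply]
    exact hσ _

theorem rmap_inj {X Y : TopRep.{u} k G} (f : X ⟶ Y) (h : ∀ a, f.hom a = 0 → a = 0) :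
    ∀ (n : ℕ) (a : resolutionX X n), (rmap f n).hom a = 0 → a = 0
  | 0, a => h a
  | n + 1, a => by
    intro ha
    refine ContinuousMap.ext fun x => ?_
    refine rmap_inj f h n _ ?_
    rw [← rmap_succ_apply, ha]; rfl

theorem rmap_comp_zero {X Y Z : TopRep.{u} k G} (f : X ⟶ Y) (g : Y ⟶ Z)
    (h : ∀ a, g.hom (f.hom a) = 0) :
    ∀ (n : ℕ) (a : resolutionX X n), (rmap g n).hom ((rmap f n).hom a) = 0
  | 0, a => h a
  | n + 1, a => by
    refine ContinuousMap.ext fun x => ?_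
    rw [rmap_succ_apply, rmap_succ_apply, rmap_comp_zero f g h n]; rfl

/-- lifting of invariant elements of a coinduced module -/
theorem inv_lift {X Y : TopRep.{u} k G} (hX : Good X) (f : X ⟶ Y) (b : Y.coind₁)
    (hb : Inv Y.coind₁ b) (a : X) (ha : f.hom a = (b : C(G, Y)) 1) :
    ∃ a' : X.coind₁, Inv X.coind₁ a' ∧ ((coind₁Functor k G).map f).hom a' = b := by
  have hc : Continuous fun x : G => X.ρ x a :=
    hX.cont.comp (f := fun x : G => (x, a)) (by fun_prop)
  refine ⟨(⟨fun x => X.ρ x a, hc⟩ : C(G, X)), fun g => ?_, ?_⟩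
  · refine ContinuousMap.ext fun x => ?_
    change X.ρ g (X.ρ (g⁻¹ * x) a) = X.ρ x a
    rw [← mul_apply_eq_comp, ← map_mul, mul_inv_cancel_left]
  · refine ContinuousMap.ext fun x => ?_
    change f.hom (X.ρ x a) = (b : C(G, Y)) x
    rw [TopRep.hom_comm_apply, ha]
    have := congrArg (fun t : C(G, Y) => t x) (hb x)
    change Y.ρ x ((b : C(G, Y)) (x⁻¹ * x)) = _ at this
    rwa [inv_mul_cancel] at this

theorem inv_exact [CompactSpace G] {X Y Z : TopRep.{u} k G} (hX : Good X) (hY : Good Y)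
    (f : X ⟶ Y) (g : Y ⟶ Z) (h : ∀ b, g.hom b = 0 → ∃ a, f.hom a = b) (n : ℕ)
    (b : resolutionX Y (n + 1)) (hb : Inv _ b) (hb0 : (rmap g (n + 1)).hom b = 0) :
    ∃ a, Inv _ a ∧ (rmap f (n + 1)).hom a = b := by
  obtain ⟨a, ha⟩ := rmap_exact hY f g h n ((b : C(G, resolutionX Y n)) 1)
    (by rw [← rmap_succ_apply, hb0]; rfl)
  exact inv_lift (hX.res n) (rmap f n) b hb a ha

theorem inv_surj [CompactSpace G] {X Y : TopRep.{u} k G} (hX : Good X) (hY : Good Y)
    (f : X ⟶ Y) (h : ∀ b, ∃ a, f.hom a = b) (n : ℕ)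
    (b : resolutionX Y (n + 1)) (hb : Inv _ b) :
    ∃ a, Inv _ a ∧ (rmap f (n + 1)).hom a = b := by
  obtain ⟨a, ha⟩ := rmap_surj hY f h n ((b : C(G, resolutionX Y n)) 1)
  exact inv_lift (hX.res n) (rmap f n) b hb a ha

/-- vanishing of `H^(n+1)` at the level of cochains -/
def Van (X : TopRep.{u} k G) (n : ℕ) : Prop :=
  ∀ a : resolutionX X (n + 2), Inv _ a → (d X (n + 2)).hom a = 0 →
    ∃ b : resolutionX X (n + 1), Inv _ b ∧ (d X (n + 1)).hom b = a

/-- relatively injective modules -/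
def RelInj (X : TopRep.{u} k G) : Prop :=
  ∃ s : X.coind₁ ⟶ X, ∀ a : X, s.hom (ContinuousMap.const G a) = a

/-- the contracting homotopy -/
def htpy {X : TopRep.{u} k G} (s : X.coind₁ ⟶ X) :
    (n : ℕ) → (resolutionX X (n + 1) ⟶ resolutionX X n)
  | 0 => s
  | n + 1 => -(coind₁Functor k G).map (htpy s n)

theorem htpy_succ_apply {X : TopRep.{u} k G} (s : X.coind₁ ⟶ X) (n : ℕ)
    (a : resolutionX X (n + 2)) (x : G) :
    ((htpy s (n + 1)).hom a : C(G, resolutionX X n)) x
      = -(htpy s n).hom ((a : C(G, resolutionX X (n + 1))) x) := by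
  have : (htpy s (n + 1)).hom = -((coind₁Functor k G).map (htpy s n)).hom := by
    have h0 := TopRep.hom_sub _ _ (0 : resolutionX X (n + 2) ⟶ resolutionX X (n + 1))
      ((coind₁Functor k G).map (htpy s n))
    rw [zero_sub, TopRep.hom_zero, zero_sub] at h0
    exact h0
  rw [this]; rfl

theorem htpy_spec {X : TopRep.{u} k G} (s : X.coind₁ ⟶ X)
    (hs : ∀ a : X, s.hom (ContinuousMap.const G a) = a) : ∀ (n : ℕ) (a : resolutionX X (n + 1)),
    (htpy s (n + 1)).hom ((d X (n + 1)).hom a) + (d X n).hom ((htpy s n).hom a) = a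
  | 0, a => by
    refine ContinuousMap.ext fun x => ?_
    rw [ContinuousMap.add_apply, htpy_succ_apply, d_succ_apply, map_sub, d_zero_apply]
    have : (htpy s 0).hom ((d X 0).hom ((a : C(G, resolutionX X 0)) x))
      = (a : C(G, resolutionX X 0)) x := hs _
    rw [this]; abel
  | n + 1, a => by
    refine ContinuousMap.ext fun x => ?_
    rw [ContinuousMap.add_apply, htpy_succ_apply, d_succ_apply, map_sub, d_succ_apply,
      htpy_succ_apply, map_neg]
    have := htpy_spec s hs n ((a : C(G, resolutionX X (n + 1))) x)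
    rw [← sub_eq_zero] at this ⊢
    rw [← this]; abel

theorem RelInj.van {X : TopRep.{u} k G} (h : RelInj X) (n : ℕ) : Van X n := by
  obtain ⟨s, hs⟩ := h
  intro a ha hda
  refine ⟨(htpy s (n + 1)).hom a, ha.map _, ?_⟩
  have := htpy_spec s hs (n + 1) a
  rwa [hda, map_zero, zero_add] at this

theorem van_of_four_term [CompactSpace G] {A I₀ I₁ I₂ : TopRep.{u} k G}
    (hA : Good A) (h₀ : Good I₀) (h₁ : Good I₁) (h₂ : Good I₂)
    (r₀ : RelInj I₀) (r₁ : RelInj I₁) (r₂ : RelInj I₂)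
    (i : A ⟶ I₀) (δ : I₀ ⟶ I₁) (T : I₁ ⟶ I₂)
    (hi : ∀ a, i.hom a = 0 → a = 0)
    (hiδ : ∀ a, δ.hom (i.hom a) = 0)
    (hiδ' : ∀ b, δ.hom b = 0 → ∃ a, i.hom a = b)
    (hδT : ∀ a, T.hom (δ.hom a) = 0)
    (hδT' : ∀ b, T.hom b = 0 → ∃ a, δ.hom a = b)
    (hT : ∀ b, ∃ a, T.hom a = b) (n : ℕ) : Van A (n + 2) := by
  intro a ha hda
  obtain ⟨b₀, hb₀, hdb₀⟩ := r₀.van (n + 2) ((rmap i _).hom a) (ha.map _)
    (by rw [rmap_d, hda, map_zero])
  obtain ⟨b₁, hb₁, hdb₁⟩ := r₁.van (n + 1) ((rmap δ _).hom b₀) (hb₀.map _)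
    (by rw [rmap_d, hdb₀, rmap_comp_zero i δ hiδ])
  obtain ⟨b₂, hb₂, hdb₂⟩ := r₂.van n ((rmap T _).hom b₁) (hb₁.map _)
    (by rw [rmap_d, hdb₁, rmap_comp_zero δ T hδT])
  obtain ⟨c₁, hc₁, hTc₁⟩ := inv_surj h₁ h₂ T hT n b₂ hb₂
  obtain ⟨c₀, hc₀, hδc₀⟩ := inv_exact h₀ h₁ δ T hδT' (n + 1) (b₁ - (d I₁ _).hom c₁)
    (hb₁.sub (hc₁.map _)) (by rw [map_sub, ← rmap_d, hTc₁, hdb₂, sub_self])
  obtain ⟨a', ha', hia'⟩ := inv_exact hA h₀ i δ hiδ' (n + 2) (b₀ - (d I₀ _).hom c₀)
    (hb₀.sub (hc₀.map _)) (by rw [map_sub, ← rmap_d, hδc₀, map_sub, hdb₁, d_d, sub_zero, sub_self])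
  refine ⟨a', ha', ?_⟩
  rw [← sub_eq_zero]
  refine rmap_inj i hi _ _ ?_
  rw [map_sub, ← rmap_d, hia', map_sub, hdb₀, d_d, sub_zero, sub_self]

theorem relInj_coind [CompactSpace G] (X : TopRep.{u} k G) : RelInj X.coind₁ := by
  let s : C(G, C(G, X)) →L[k] C(G, X) :=
    { toFun := fun Φ => ⟨fun x => Φ x x, by fun_prop⟩
      map_add' := fun _ _ => rfl
      map_smul' := fun _ _ => rfl
      cont := by
        refine ContinuousMap.continuous_of_continuous_uncurry _ ?_
        change Continuous (fun y : C(G, C(G, X)) × G => y.1 y.2 y.2)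
        fun_prop }
  refine ⟨TopRep.ofHom ⟨s, fun g => ?_⟩, fun a => ?_⟩
  · ext Φ x; rfl
  · rfl

theorem Van.subsingleton {X : TopRep.{u} k G} {n : ℕ} (h : Van X n) :
    Subsingleton (continuousCohomology (n + 1) X) := by
  let K := homogeneousCochains X
  let S := K.sc' n (n + 1) (n + 2)
  let e : K.homology (n + 1) ≅ S.homology := K.homologyIsoSc' n (n + 1) (n + 2) (by simp) (by simp)
  let D₁ : S.LeftHomologyData :=
    ⟨_, _, _, _, _, TopModuleCat.isLimitKer _, by simp, TopModuleCat.isColimitCoker _⟩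
  have hH : Subsingleton D₁.H := by
    refine ⟨fun x y => ?_⟩
    have key : ∀ z : D₁.H, z = 0 := by
      intro z
      obtain ⟨w, rfl⟩ := TopModuleCat.cokerπ_surjective _ z
      rw [TopModuleCat.hom_cokerπ, Submodule.mkQ_apply, Submodule.Quotient.mk_eq_zero]
      obtain ⟨⟨a, ha⟩, hw⟩ := w
      have hda : (d X (n + 2)).hom a = 0 := by
        have h1 : ((K.d (n + 1) (n + 2)).hom ⟨a, ha⟩) = 0 := hw
        have h2 := homogeneousCochains.d_apply X (n + 1) ⟨a, ha⟩
        rw [h1] at h2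
        exact h2.symm
      obtain ⟨b, hb, hdb⟩ := h a ha hda
      refine ⟨⟨b, hb⟩, ?_⟩
      refine Subtype.ext (Subtype.ext ?_)
      exact (homogeneousCochains.d_apply X n ⟨b, hb⟩).trans hdb
    rw [key x, key y]
  let e' := e ≪≫ D₁.homologyIso
  refine ⟨fun x y => ?_⟩
  have h1 : ∀ z, e'.inv.hom (e'.hom.hom z) = z := fun z => by
    exact congrArg (fun t => (TopModuleCat.Hom.hom t) z) e'.hom_inv_id
  rw [← h1 x, ← h1 y, Subsingleton.elim (e'.hom.hom x) (e'.hom.hom y)]

end Pool.Agent.MP_de7343_al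

end

-- part MP_de7343_al.Free
section

/-!
Free pro-p groups: generation by the basis, lifting to finite p-groups and to `ℤ_[p]`,
existence and uniqueness of cocycles with prescribed values on the basis.
-/

namespace Pool.Agent.MP_de7343_al

universe u v w

/-- working form of the pro-`p` property -/
def PP (p : ℕ) (G : Type v) [Group G] [TopologicalSpace G] : Prop :=
  ∀ W : Set G, IsOpen W → 1 ∈ W →
    ∃ U : OpenNormalSubgroup G, (U : Set G) ⊆ W ∧ ∀ g : G, ∃ k : ℕ, g ^ p ^ k ∈ U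

theorem IsProP.pow_mem {p : ℕ} {G : Type u} [Group G] [TopologicalSpace G] (h : IsProP p G)
    (U : OpenNormalSubgroup G) (g : G) : ∃ k : ℕ, g ^ p ^ k ∈ U := by
  obtain ⟨k, hk⟩ := h.pgroup U (QuotientGroup.mk g)
  refine ⟨k, ?_⟩
  rw [← QuotientGroup.mk_pow, QuotientGroup.eq_one_iff] at hk
  exact hk

theorem IsProP.pp {p : ℕ} {G : Type u} [Group G] [TopologicalSpace G] (h : IsProP p G) :
    PP p G := by
  have := h.topGroup
  have := h.compact
  have := h.totDisc
  intro W hW h1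
  obtain ⟨U, hU⟩ := ProfiniteGrp.exist_openNormalSubgroup_sub_open_nhds_of_one hW h1
  exact ⟨U, hU, h.pow_mem U⟩

theorem isPGroup_quot {p : ℕ} {G : Type v} [Group G] (U : Subgroup G) [U.Normal]
    (h : ∀ g : G, ∃ k : ℕ, g ^ p ^ k ∈ U) : IsPGroup p (G ⧸ U) := by
  intro q
  obtain ⟨g, rfl⟩ := QuotientGroup.mk_surjective q
  obtain ⟨k, hk⟩ := h g
  exact ⟨k, by rwa [← QuotientGroup.mk_pow, QuotientGroup.eq_one_iff]⟩

theorem PP.isProP {p : ℕ} {G : Type u} [Group G] [TopologicalSpace G] [IsTopologicalGroup G]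
    [CompactSpace G] [T2Space G] [TotallyDisconnectedSpace G] (h : PP p G) : IsProP p G := by
  refine ⟨inferInstance, inferInstance, inferInstance, inferInstance, fun U => ?_⟩
  obtain ⟨V, hV, hp⟩ := h U U.isOpen U.toSubgroup.one_mem
  exact isPGroup_quot _ fun g => (hp g).imp fun k hk => hV hk

theorem PP.subgroup {p : ℕ} {G : Type v} [Group G] [TopologicalSpace G] (h : PP p G)
    (S : Subgroup G) : PP p S := by
  intro W hW h1
  obtain ⟨W', hW', rfl⟩ := isOpen_induced_iff.1 hW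
  obtain ⟨U, hU, hp⟩ := h W' hW' h1
  refine ⟨⟨⟨U.toSubgroup.comap S.subtype, U.isOpen.preimage continuous_subtype_val⟩,
    inferInstance⟩, fun x hx => hU hx, fun g => hp g⟩

theorem PP.quotient {p : ℕ} {G : Type v} [Group G] [TopologicalSpace G] [IsTopologicalGroup G]
    (h : PP p G) (R : Subgroup G) [R.Normal] : PP p (G ⧸ R) := by
  intro W hW h1
  obtain ⟨U, hU, hp⟩ := h (QuotientGroup.mk ⁻¹' W) (hW.preimage QuotientGroup.continuous_mk) h1
  refine ⟨⟨⟨U.toSubgroup.map (QuotientGroup.mk' R), QuotientGroup.isOpenMap_coe _ U.isOpen⟩,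
    U.isNormal'.map _ (QuotientGroup.mk'_surjective R)⟩, ?_, ?_⟩
  · rintro _ ⟨x, hx, rfl⟩
    exact hU hx
  · intro q
    obtain ⟨g, rfl⟩ := QuotientGroup.mk_surjective q
    obtain ⟨k, hk⟩ := hp g
    exact ⟨k, g ^ p ^ k, hk, rfl⟩

theorem isOpen_stab {G : Type v} [Group G] [TopologicalSpace G] [IsTopologicalGroup G]
    [CompactSpace G] {A : Type w} {φ : G → A} (hφ : IsLocallyConstant φ) :
    IsOpen {u : G | ∀ z, φ (z * u) = φ z} := by
  let : TopologicalSpace A := ⊥
  have : DiscreteTopology A := ⟨rfl⟩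
  have : DiscreteTopology C(G, A) := discreteC
  have hc : Continuous φ := hφ.continuous
  let Φ : C(G, C(G, A)) := ContinuousMap.curry ⟨fun x : G × G => φ (x.2 * x.1), by fun_prop⟩
  have : {u : G | ∀ z, φ (z * u) = φ z} = Φ ⁻¹' {⟨φ, hc⟩} := by
    ext u
    simp only [Set.mem_ofPred_eq, Set.mem_preimage, Set.mem_singleton_iff, ContinuousMap.ext_iff]
    rfl
  rw [this]
  exact (isOpen_discrete _).preimage Φ.continuous

/-- `ι : X → F` is a basis of the free pro-`p` group `F` -/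
structure IsBasis (p : ℕ) {F : Type u} [Group F] [TopologicalSpace F] {X : Type u} (ι : X → F) :
    Prop where
  proP : IsProP p F
  conv : ConvergesToOne ι
  univ : ∀ (H : Type u) [Group H] [TopologicalSpace H], IsProP p H →
      ∀ f : X → H, ConvergesToOne f → ∃! φ : F →ₜ* H, ∀ x, φ (ι x) = f x

variable {p : ℕ} {F : Type u} [Group F] [TopologicalSpace F] {X : Type u} {ι : X → F}

theorem IsBasis.gen (hB : IsBasis p ι) (S : Subgroup F) (hS : IsClosed (S : Set F))
    (hι : ∀ x, ι x ∈ S) (u : F) : u ∈ S := by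
  have := hB.proP.topGroup
  have := hB.proP.compact
  have := hB.proP.totDisc
  have := hB.proP.t2
  have : CompactSpace S := isCompact_iff_compactSpace.1 hS.isCompact
  have hS' : IsProP p S := (hB.proP.pp.subgroup S).isProP
  have hconv : ConvergesToOne (fun x => (⟨ι x, hι x⟩ : S)) := by
    intro U
    obtain ⟨W', hW', hW⟩ := isOpen_induced_iff.1 U.isOpen
    have h1 : (1 : F) ∈ W' := by
      have : (1 : S) ∈ (U : Set S) := U.one_mem
      rw [← hW] at this
      exact this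
    obtain ⟨V, hV, -⟩ := hB.proP.pp W' hW' h1
    refine (hB.conv V.toOpenSubgroup).subset fun x hx hx' => hx ?_
    change (⟨ι x, hι x⟩ : S) ∈ (U : Set S)
    rw [← hW]
    exact hV hx'
  obtain ⟨φ, hφ, -⟩ := hB.univ S hS' _ hconv
  obtain ⟨ψ, -, hψ⟩ := hB.univ F hB.proP ι hB.conv
  let j : S →ₜ* F := ⟨S.subtype, continuous_subtype_val⟩
  have e1 : j.comp φ = ψ := hψ _ fun x => by
    change ((φ (ι x) : S) : F) = _
    rw [hφ]
  have e2 : ContinuousMonoidHom.id F = ψ := hψ _ fun x => rfl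
  have : (j.comp φ) u = u := by rw [e1, ← e2]; rfl
  rw [← this]
  exact (φ u).2

theorem IsBasis.lift_finite (hB : IsBasis p ι) {W : Type v} [Group W] [Finite W]
    (hW : IsPGroup p W) (f : X → W) (hf : {x | f x ≠ 1}.Finite) :
    ∃ φ : F →* W, IsLocallyConstant φ ∧ ∀ x, φ (ι x) = f x := by
  let : TopologicalSpace (Shrink.{u} W) := ⊥
  have : DiscreteTopology (Shrink.{u} W) := ⟨rfl⟩
  let e : Shrink.{u} W ≃* W := Shrink.mulEquiv
  have : Finite (Shrink.{u} W) := Finite.of_equiv W e.symm.toEquiv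
  have hW' : IsProP p (Shrink.{u} W) :=
    ⟨inferInstance, inferInstance, inferInstance, inferInstance, fun U =>
      (hW.of_equiv e.symm).to_quotient _⟩
  obtain ⟨φ, hφ, -⟩ := hB.univ _ hW' (fun x => e.symm (f x)) (fun U => hf.subset fun x hx h1 =>
    hx (by simp only [h1, map_one]; exact U.one_mem))
  refine ⟨e.toMonoidHom.comp φ.toMonoidHom, ?_, fun x => ?_⟩
  · exact ((IsLocallyConstant.iff_continuous φ).2 φ.continuous).comp e
  · change e (φ (ι x)) = _
    rw [hφ, e.apply_symm_apply]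

theorem pp_padic [Fact p.Prime] : PP p (Multiplicative ℤ_[p]) := by
  intro W hW h1
  obtain ⟨U, hU⟩ := ProfiniteGrp.exist_openNormalSubgroup_sub_open_nhds_of_one hW h1
  refine ⟨U, hU, fun g => ?_⟩
  have h0 : Filter.Tendsto (fun k : ℕ => (p : ℤ_[p]) ^ k * g.toAdd) Filter.atTop (nhds 0) := by
    have hlt : ‖(p : ℤ_[p])‖ < 1 := by
      rw [PadicInt.norm_p]
      exact inv_lt_one_of_one_lt₀ (by exact_mod_cast (Fact.out : p.Prime).one_lt)
    have := (tendsto_pow_atTop_nhds_zero_of_norm_lt_one hlt).mul_const g.toAdd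
    rwa [zero_mul] at this
  have h2 : (Multiplicative.ofAdd ⁻¹' (U : Set (Multiplicative ℤ_[p]))) ∈ nhds (0 : ℤ_[p]) :=
    (U.isOpen.preimage continuous_ofAdd).mem_nhds U.toSubgroup.one_mem
  obtain ⟨k, hk⟩ := (h0.eventually h2).exists
  refine ⟨k, ?_⟩
  have : g ^ p ^ k = Multiplicative.ofAdd ((p : ℤ_[p]) ^ k * g.toAdd) := by
    apply Multiplicative.toAdd.injective
    simp
  rw [this]
  exact hk

theorem IsBasis.lift_padic [Fact p.Prime] (hB : IsBasis p ι) (f : X → Multiplicative ℤ_[p])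
    (hf : {x | f x ≠ 1}.Finite) : ∃ φ : F →ₜ* Multiplicative ℤ_[p], ∀ x, φ (ι x) = f x := by
  let H := ULift.{u} (Multiplicative ℤ_[p])
  let e : H →* Multiplicative ℤ_[p] := (MulEquiv.ulift : H ≃* Multiplicative ℤ_[p]).toMonoidHom
  have : TotallyDisconnectedSpace H :=
    Homeomorph.ulift.isEmbedding.isTotallyDisconnected_range.1 (isTotallyDisconnected_of_totallyDisconnectedSpace _)
  have hH : PP p H := by
    intro W hW h1
    obtain ⟨U, hU, hp⟩ := pp_padic (p := p) (ULift.up ⁻¹' W) (hW.preimage continuous_uliftUp) h1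
    refine ⟨⟨⟨U.toSubgroup.comap e,
      U.isOpen.preimage continuous_uliftDown⟩, inferInstance⟩, fun x hx => hU hx, fun g => hp g.down⟩
  obtain ⟨φ, hφ, -⟩ := hB.univ H hH.isProP (fun x => ULift.up (f x))
    (fun U => hf.subset fun x hx h1 => hx (by simp only [h1]; exact U.one_mem))
  refine ⟨⟨e.comp φ.toMonoidHom,
    continuous_uliftDown.comp φ.continuous⟩, fun x => ?_⟩
  change (φ (ι x)).down = _
  rw [hφ]

variable {G : Type v} [Group G] [TopologicalSpace G] {A : Type w} [AddCommGroup A]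

/-- locally constant cocycles of `F` with values in the functions `G → A` -/
structure IsCoc (ρ : F →ₜ* G) (c : F → G → A) : Prop where
  lc : IsLocallyConstant (fun x : F × G => c x.1 x.2)
  mul : ∀ u v z, c (u * v) z = c u z + c v (z * ρ u)

namespace IsCoc

variable {ρ : F →ₜ* G} {c c' : F → G → A}

theorem one (h : IsCoc ρ c) (z : G) : c 1 z = 0 := by
  have := h.mul 1 1 z
  simpa using this

theorem inv (h : IsCoc ρ c) (u : F) (z : G) : c u⁻¹ z = -c u (z * (ρ u)⁻¹) := by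
  have := h.mul u⁻¹ u z
  rw [inv_mul_cancel, h.one, map_inv] at this
  exact eq_neg_of_add_eq_zero_left this.symm

theorem lc_left (h : IsCoc ρ c) (z : G) : IsLocallyConstant (fun u => c u z) :=
  h.lc.comp_continuous (f := fun u : F => (u, z)) (by fun_prop)

theorem lc_right (h : IsCoc ρ c) (u : F) : IsLocallyConstant (c u) :=
  h.lc.comp_continuous (f := fun z : G => (u, z)) (by fun_prop)

theorem add (h : IsCoc ρ c) (h' : IsCoc ρ c') : IsCoc ρ (c + c') :=
  ⟨h.lc.add h'.lc, fun u v z => by simp only [Pi.add_apply, h.mul, h'.mul]; abel⟩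

theorem neg (h : IsCoc ρ c) : IsCoc ρ (-c) :=
  ⟨h.lc.neg, fun u v z => by simp only [Pi.neg_apply, h.mul]; abel⟩

theorem sub (h : IsCoc ρ c) (h' : IsCoc ρ c') : IsCoc ρ (c - c') := by
  rw [sub_eq_add_neg]; exact h.add h'.neg

theorem map (h : IsCoc ρ c) {B : Type*} [AddCommGroup B] (f : A →+ B) :
    IsCoc ρ (fun u z => f (c u z)) :=
  ⟨h.lc.comp f, fun u v z => by rw [h.mul, map_add]⟩

theorem transl [ContinuousMul G] (h : IsCoc ρ c) (g : G) : IsCoc ρ (fun u z => c u (g * z)) :=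
  ⟨h.lc.comp_continuous (f := fun x : F × G => (x.1, g * x.2)) (by fun_prop),
    fun u v z => by rw [h.mul, mul_assoc]⟩

theorem pull {G' : Type*} [Group G'] [TopologicalSpace G'] {π : G →ₜ* G'} {c : F → G' → A}
    (h : IsCoc (π.comp ρ) c) : IsCoc ρ (fun u z => c u (π z)) :=
  ⟨h.lc.comp_continuous (f := fun x : F × G => (x.1, π x.2)) (by fun_prop),
    fun u v z => by rw [h.mul, map_mul]; rfl⟩

/-- the subgroup on which a cocycle vanishes -/
def zer (h : IsCoc ρ c) : Subgroup F where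
  carrier := {u | ∀ z, c u z = 0}
  one_mem' := h.one
  mul_mem' := fun {u v} hu hv z => by rw [h.mul, hu, hv, add_zero]
  inv_mem' := fun {u} hu z => by rw [h.inv, hu, neg_zero]

theorem isClosed_zer (h : IsCoc ρ c) : IsClosed (h.zer : Set F) := by
  have : (h.zer : Set F) = ⋂ z, (fun u => c u z) ⁻¹' {0} := by
    ext u; simp [zer]
  rw [this]
  exact isClosed_iInter fun z => ((h.lc_left z).isClopen_fiber 0).isClosed

theorem isOpen_zer [CompactSpace G] (h : IsCoc ρ c) : IsOpen (h.zer : Set F) := by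
  let : TopologicalSpace A := ⊥
  have : DiscreteTopology A := ⟨rfl⟩
  have : DiscreteTopology C(G, A) := discreteC
  let Φ : C(F, C(G, A)) := ContinuousMap.curry ⟨fun x : F × G => c x.1 x.2, h.lc.continuous⟩
  have : (h.zer : Set F) = Φ ⁻¹' {0} := by
    ext u
    simp only [Set.mem_preimage, Set.mem_singleton_iff, ContinuousMap.ext_iff]
    rfl
  rw [this]
  exact (isOpen_discrete _).preimage Φ.continuous

end IsCoc

theorem IsBasis.coc_unique (hB : IsBasis p ι) {ρ : F →ₜ* G} {c c' : F → G → A} (h : IsCoc ρ c)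
    (h' : IsCoc ρ c') (e : ∀ x, c (ι x) = c' (ι x)) : c = c' := by
  funext u z
  have := hB.gen (h.sub h').zer (h.sub h').isClosed_zer
    (fun x z => by simp [e x]) u z
  exact sub_eq_zero.1 this

theorem IsBasis.coc_finite [CompactSpace G] (hB : IsBasis p ι) {ρ : F →ₜ* G} {c : F → G → A}
    (h : IsCoc ρ c) : {x | c (ι x) ≠ 0}.Finite :=
  (hB.conv ⟨h.zer, h.isOpen_zer⟩).subset fun _ hx h0 => hx (funext h0)

theorem isPGroup_wreath [Fact p.Prime] {D Q : Type*} [Group D] [Group Q] [Finite D] [Finite Q]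
    (hD : IsPGroup p D) (hQ : IsPGroup p Q) : IsPGroup p (RegularWreathProduct D Q) := by
  obtain ⟨a, ha⟩ := hD.exists_card_eq
  obtain ⟨b, hb⟩ := hQ.exists_card_eq
  refine IsPGroup.of_card (n := a * p ^ b + b) ?_
  rw [RegularWreathProduct.card, ha, hb, ← pow_mul, ← pow_add]

theorem IsBasis.coc_exists [Fact p.Prime] [IsTopologicalGroup G] [CompactSpace G]
    (hB : IsBasis p ι) (hG : PP p G) (hA : ∀ a : A, ∃ k : ℕ, p ^ k • a = 0) (ρ : F →ₜ* G)
    (φ : X → G → A) (hφ : ∀ x, IsLocallyConstant (φ x)) (hfin : {x | φ x ≠ 0}.Finite) :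
    ∃ c : F → G → A, IsCoc ρ c ∧ ∀ x, c (ι x) = φ x := by
  classical
  have hop : IsOpen (⋂ x ∈ {x | φ x ≠ 0}, {u : G | ∀ z, φ x (z * u) = φ x z}) :=
    hfin.isOpen_biInter fun x _ => isOpen_stab (hφ x)
  obtain ⟨U, hU, hUp⟩ := hG _ hop (by simp)
  have hinv : ∀ x, ∀ u ∈ U, ∀ z, φ x (z * u) = φ x z := by
    intro x u hu z
    by_cases hx : φ x = 0
    · simp [hx]
    · exact Set.mem_iInter₂.1 (hU hu) x hx z
  let S : Set A := ⋃ x ∈ {x | φ x ≠ 0}, Set.range (φ x)
  have hS : S.Finite := hfin.biUnion fun x _ => (hφ x).range_finite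
  let A₀ : AddSubgroup A := AddSubgroup.closure S
  have hmem : ∀ x z, φ x z ∈ A₀ := by
    intro x z
    by_cases hx : φ x = 0
    · simp [hx]
    · exact AddSubgroup.subset_closure (Set.mem_biUnion hx ⟨z, rfl⟩)
  have hfg : AddGroup.FG A₀ := (AddGroup.fg_iff_addSubgroup_fg A₀).2
    ((AddSubgroup.fg_iff A₀).2 ⟨S, rfl, hS⟩)
  have hp0 : ∀ a : A₀, ∃ k : ℕ, p ^ k • a = 0 := fun a =>
    (hA a).imp fun k hk => Subtype.ext hk
  have : Finite A₀ := AddCommGroup.finite_of_fg_isAddTorsion A₀ fun a => by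
    obtain ⟨k, hk⟩ := hp0 a
    exact isOfFinAddOrder_iff_nsmul_eq_zero.2 ⟨p ^ k, pow_pos (Fact.out : p.Prime).pos k, hk⟩
  have hD : IsPGroup p (Multiplicative A₀) := fun a => hp0 a.toAdd
  let P := G ⧸ U.toSubgroup
  have : Finite P := Subgroup.quotient_finite_of_isOpen _ U.isOpen
  have hP : IsPGroup p P := isPGroup_quot _ hUp
  let f : X → RegularWreathProduct (Multiplicative A₀) P := fun x =>
    ⟨fun q => Multiplicative.ofAdd ⟨φ x (q⁻¹).out, hmem _ _⟩, QuotientGroup.mk (ρ (ι x))⟩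
  have hf : {x | f x ≠ 1}.Finite := by
    refine (hfin.union (hB.conv (U.toOpenSubgroup.comap ρ.toMonoidHom ρ.continuous))).subset ?_
    intro x hx
    by_contra hcon
    simp only [Set.mem_union, Set.mem_ofPred_eq, not_or, not_not] at hcon
    apply hx
    ext q
    · simp [f, hcon.1]
    · exact (QuotientGroup.eq_one_iff _).2 hcon.2
  obtain ⟨ψ, hψc, hψ⟩ := hB.lift_finite (isPGroup_wreath hD hP) f hf
  have hmk : IsLocallyConstant (QuotientGroup.mk : G → P) := by
    have : DiscreteTopology P := QuotientGroup.discreteTopology U.isOpen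
    exact (IsLocallyConstant.iff_continuous _).2 QuotientGroup.continuous_mk
  have hright : ∀ u, (ψ u).right = QuotientGroup.mk (ρ u) := by
    intro u
    refine hB.gen (MonoidHom.eqLocus (RegularWreathProduct.rightHom.comp ψ)
      ((QuotientGroup.mk' U.toSubgroup).comp ρ.toMonoidHom)) ?_ (fun x => ?_) u
    · have h1 : IsLocallyConstant fun u : F => ((ψ u).right, (QuotientGroup.mk (ρ u) : P)) :=
        (hψc.comp RegularWreathProduct.right).prodMk (hmk.comp_continuous ρ.continuous)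
      exact (h1 {x | x.1 = x.2}ᶜ).isClosed_compl |> fun h => by
        convert h using 1
        ext u; simp; rfl
    · change (ψ (ι x)).right = _
      rw [hψ]; rfl
  refine ⟨fun u z => (((ψ u).left (QuotientGroup.mk z : P)⁻¹).toAdd : A₀), ⟨?_, ?_⟩, ?_⟩
  · have h1 : IsLocallyConstant fun x : F × G => (ψ x.1, (QuotientGroup.mk x.2 : P)) :=
      (hψc.comp_continuous continuous_fst).prodMk (hmk.comp_continuous continuous_snd)
    exact h1.comp fun y => ((y.1.left y.2⁻¹).toAdd : A)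
  · intro u v z
    rw [map_mul, RegularWreathProduct.mul_left, Pi.mul_apply, toAdd_mul, AddSubgroup.coe_add,
      hright, QuotientGroup.mk_mul, mul_inv_rev]
  · intro x
    funext z
    simp only [hψ]
    change φ x ((QuotientGroup.mk z : P)⁻¹⁻¹).out = _
    rw [inv_inv]
    obtain ⟨h, hh⟩ := QuotientGroup.mk_out_eq_mul U.toSubgroup z
    rw [hh]
    exact hinv x h h.2 z

end Pool.Agent.MP_de7343_al

end

-- part MP_de7343_al.Nilp
section

/-!
Local nilpotency of equivariant operators killing the invariants; the difference operator on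
locally constant functions on `ℤ_[p]`.
-/

namespace Pool.Agent.MP_de7343_al

universe u v w

theorem exists_fixed {p : ℕ} [hp : Fact p.Prime] {L V : Type*} [Group L] [AddCommGroup V]
    [DistribMulAction L V] (hV : ∀ v : V, ∃ k : ℕ, p ^ k • v = 0)
    (hL : ∀ (l : L) (v : V), ∃ k : ℕ, l ^ p ^ k • v = v)
    (W : AddSubgroup V) [Finite W] (hW : ∀ (l : L), ∀ v ∈ W, l • v ∈ W) (hne : W ≠ ⊥) :
    ∃ w ∈ W, w ≠ 0 ∧ ∀ l : L, l • w = w := by
  let : MulAction L W :=
    { smul := fun l w => ⟨l • w.1, hW l _ w.2⟩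
      one_smul := fun w => Subtype.ext (one_smul _ _)
      mul_smul := fun a b w => Subtype.ext (mul_smul _ _ _) }
  have hsm : ∀ (l : L) (w : W), ((l • w : W) : V) = l • (w : V) := fun _ _ => rfl
  let H : Subgroup (Equiv.Perm W) := (MulAction.toPermHom L W).range
  have hH : IsPGroup p H := by
    rintro ⟨_, l, rfl⟩
    choose k hk using fun w : W => hL l w.1
    obtain ⟨K, hK⟩ := (Set.finite_range k).bddAbove
    refine ⟨K, Subtype.ext ?_⟩
    change (MulAction.toPermHom L W l) ^ p ^ K = 1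
    rw [← map_pow]
    ext w
    change l ^ p ^ K • (w : V) = w
    obtain ⟨j, hj⟩ := Nat.exists_eq_add_of_le (hK ⟨w, rfl⟩)
    rw [hj, pow_add, pow_mul]
    exact MulAction.mem_stabilizer_iff.1
      (Subgroup.pow_mem _ (MulAction.mem_stabilizer_iff.2 (hk w)) _)
  have hWp : IsPGroup p (Multiplicative W) := fun a =>
    (hV (a.toAdd : W).1).imp fun k hk => Subtype.ext hk
  have hdvd : p ∣ Nat.card W := by
    have : Nontrivial W := (AddSubgroup.nontrivial_iff_ne_bot W).2 hne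
    obtain ⟨n, hn0, hn⟩ := hWp.nontrivial_iff_card.1 inferInstance
    have : Nat.card W = p ^ n := hn
    rw [this]
    exact dvd_pow_self p hn0.ne'
  have h0 : (0 : W) ∈ MulAction.fixedPoints H W := by
    rintro ⟨_, l, rfl⟩
    exact Subtype.ext (smul_zero l)
  obtain ⟨b, hb, hb0⟩ := hH.exists_fixed_point_of_prime_dvd_card_of_fixed_point W hdvd h0
  refine ⟨b, b.2, fun h => hb0 (Subtype.ext h.symm), fun l => ?_⟩
  exact congrArg Subtype.val (hb ⟨_, l, rfl⟩)

theorem locally_nilpotent {p : ℕ} [hp : Fact p.Prime] {L V : Type*} [Group L] [AddCommGroup V]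
    [DistribMulAction L V] (hV : ∀ v : V, ∃ k : ℕ, p ^ k • v = 0)
    (hL : ∀ (l : L) (v : V), ∃ k : ℕ, l ^ p ^ k • v = v)
    (horb : ∀ v : V, (MulAction.orbit L v).Finite)
    (N : V →+ V) (hN : ∀ (l : L) (v : V), N (l • v) = l • N v)
    (hN0 : ∀ v : V, (∀ l : L, l • v = v) → N v = 0) (v : V) : ∃ n : ℕ, N^[n] v = 0 := by
  have key : ∀ (n : ℕ) (W : AddSubgroup V), Finite W → Nat.card W ≤ n →
      (∀ (l : L), ∀ v ∈ W, l • v ∈ W) → ∀ v ∈ W, N^[n] v = 0 := by
    intro n
    induction n with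
    | zero =>
      intro W hfin hc
      exact absurd (Nat.card_pos (α := W)) (by omega)
    | succ n ih =>
      intro W hfin hc hW v hv
      by_cases hne : W = ⊥
      · subst hne
        rw [AddSubgroup.mem_bot.1 hv]
        exact Function.iterate_fixed (map_zero N) _
      obtain ⟨w, hw, hw0, hwf⟩ := exists_fixed hV hL W hW hne
      let f : W → W.map N := fun x => ⟨N x, x, x.2, rfl⟩
      have hfs : Function.Surjective f := by
        rintro ⟨_, x, hx, rfl⟩
        exact ⟨⟨x, hx⟩, rfl⟩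
      have hfin' : Finite (W.map N) := Finite.of_surjective f hfs
      have hlt : Nat.card (W.map N) < Nat.card W := by
        refine lt_of_le_of_ne (Nat.card_le_card_of_surjective f hfs) fun heq => ?_
        have hbij : Function.Bijective f := hfs.bijective_of_nat_card_le heq.ge
        have : (⟨w, hw⟩ : W) = 0 := hbij.1 (Subtype.ext (by
          change N w = N 0
          rw [hN0 w hwf, map_zero]))
        exact hw0 (congrArg Subtype.val this)
      rw [Function.iterate_succ_apply]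
      refine ih (W.map N) hfin' (by omega) ?_ _ ⟨v, hv, rfl⟩
      rintro l _ ⟨x, hx, rfl⟩
      exact ⟨l • x, hW l x hx, hN l x⟩
  let W : AddSubgroup V := AddSubgroup.closure (MulAction.orbit L v)
  have hfg : AddGroup.FG W := (AddGroup.fg_iff_addSubgroup_fg W).2
    ((AddSubgroup.fg_iff W).2 ⟨_, rfl, horb v⟩)
  have hfin : Finite W := AddCommGroup.finite_of_fg_isAddTorsion W fun a => by
    obtain ⟨k, hk⟩ := hV a.1
    exact isOfFinAddOrder_iff_nsmul_eq_zero.2 ⟨p ^ k, pow_pos hp.out.pos k, Subtype.ext hk⟩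
  refine ⟨_, key _ W hfin le_rfl ?_ v (AddSubgroup.subset_closure (MulAction.mem_orbit_self v))⟩
  intro l x hx
  induction hx using AddSubgroup.closure_induction with
  | mem x hx =>
    obtain ⟨g, rfl⟩ := hx
    exact AddSubgroup.subset_closure ⟨l * g, mul_smul _ _ _⟩
  | zero => rw [smul_zero]; exact W.zero_mem
  | add x y _ _ hx hy => rw [smul_add]; exact W.add_mem hx hy
  | neg x _ hx => rw [smul_neg]; exact W.neg_mem hx

variable {p : ℕ} {G : Type v} [Group G] [TopologicalSpace G] [IsTopologicalGroup G]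
  {A : Type w} [AddCommGroup A]

/-- left translation of locally constant functions -/
def tr (g : G) (φ : LocallyConstant G A) : LocallyConstant G A :=
  ⟨fun z => φ (g * z), φ.isLocallyConstant.comp_continuous (by fun_prop)⟩

omit [AddCommGroup A] in
@[simp] theorem tr_apply (g : G) (φ : LocallyConstant G A) (z : G) : tr g φ z = φ (g * z) := rfl

omit [AddCommGroup A] in
theorem exists_inv [CompactSpace G] (hG : PP p G) (φ : LocallyConstant G A) :
    ∃ U : OpenNormalSubgroup G, (∀ g : G, ∃ k : ℕ, g ^ p ^ k ∈ U) ∧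
      (∀ u ∈ U, ∀ z, φ (z * u) = φ z) ∧ ∀ u ∈ U, ∀ z, φ (u * z) = φ z := by
  obtain ⟨U, hU, hp⟩ := hG _ (isOpen_stab φ.isLocallyConstant) (by simp)
  refine ⟨U, hp, fun u hu z => hU hu z, fun u hu z => ?_⟩
  have h1 : z⁻¹ * u * z⁻¹⁻¹ ∈ U := U.isNormal'.conj_mem u hu z⁻¹
  have := hU h1 z
  simpa [mul_assoc] using this

omit [Group G] [IsTopologicalGroup G] in
theorem lc_torsion [CompactSpace G] (hA : ∀ a : A, ∃ k : ℕ, p ^ k • a = 0)
    (φ : LocallyConstant G A) : ∃ k : ℕ, p ^ k • φ = 0 := by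
  choose k hk using hA
  obtain ⟨K, hK⟩ := (φ.range_finite.image k).bddAbove
  refine ⟨K, ?_⟩
  ext z
  obtain ⟨j, hj⟩ := Nat.exists_eq_add_of_le (hK ⟨φ z, ⟨z, rfl⟩, rfl⟩)
  change p ^ K • φ z = 0
  rw [hj, pow_add, mul_comm, mul_smul, hk, smul_zero]

theorem lc_nilpotent [Fact p.Prime] [CompactSpace G] (hG : PP p G)
    (hA : ∀ a : A, ∃ k : ℕ, p ^ k • a = 0) (L : Subgroup G)
    (N : LocallyConstant G A →+ LocallyConstant G A)
    (hN : ∀ l ∈ L, ∀ φ, N (tr l φ) = tr l (N φ))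
    (hN0 : ∀ φ, (∀ l ∈ L, tr l φ = φ) → N φ = 0) (φ : LocallyConstant G A) :
    ∃ n : ℕ, N^[n] φ = 0 := by
  let : DistribMulAction L (LocallyConstant G A) :=
    { smul := fun l φ => tr (l⁻¹ : G) φ
      one_smul := fun φ => by
        ext z
        change φ (((1 : L) : G)⁻¹ * z) = _
        simp
      mul_smul := fun a b φ => by
        ext z
        change φ (((a * b : L) : G)⁻¹ * z) = φ ((b : G)⁻¹ * ((a : G)⁻¹ * z))
        simp [mul_assoc]
      smul_zero := fun _ => rfl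
      smul_add := fun _ _ _ => rfl }
  have hsm : ∀ (l : L) (φ : LocallyConstant G A), l • φ = tr (l⁻¹ : G) φ := fun _ _ => rfl
  refine locally_nilpotent (p := p) (L := L) (lc_torsion hA) ?_ ?_ N ?_ ?_ φ
  · intro l φ
    obtain ⟨U, hp, -, hU⟩ := exists_inv hG φ
    obtain ⟨k, hk⟩ := hp l
    refine ⟨k, ?_⟩
    ext z
    exact hU _ (U.toSubgroup.inv_mem hk) z
  · intro φ
    obtain ⟨U, -, hU, -⟩ := exists_inv hG φ
    have : Finite (G ⧸ U.toSubgroup) := Subgroup.quotient_finite_of_isOpen _ U.isOpen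
    refine (Set.finite_range fun q : G ⧸ U.toSubgroup => tr q.out φ).subset ?_
    rintro _ ⟨l, rfl⟩
    refine ⟨QuotientGroup.mk (l⁻¹ : G), ?_⟩
    obtain ⟨h, hh⟩ := QuotientGroup.mk_out_eq_mul U.toSubgroup (l⁻¹ : G)
    ext z
    change φ (_ * z) = φ ((l : G)⁻¹ * z)
    rw [hh]
    have := hU _ (U.isNormal'.conj_mem h h.2 z⁻¹) ((l : G)⁻¹ * z)
    simpa [mul_assoc] using this
  · intro l φ
    exact hN _ (L.inv_mem l.2) φ
  · intro φ hφ
    refine hN0 φ fun l hl => ?_
    have := hφ ⟨l⁻¹, L.inv_mem hl⟩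
    rwa [hsm, inv_inv] at this

section padic

variable [hp : Fact p.Prime]

/-- the difference operator -/
noncomputable def Dop (p : ℕ) [Fact p.Prime] (A : Type w) [AddCommGroup A] :
    LocallyConstant (Multiplicative ℤ_[p]) A →+ LocallyConstant (Multiplicative ℤ_[p]) A where
  toFun φ := tr (Multiplicative.ofAdd 1) φ - φ
  map_zero' := by ext z; simp
  map_add' φ ψ := by
    ext z
    change (φ _ + ψ _) - (φ z + ψ z) = (φ _ - φ z) + (ψ _ - ψ z)
    abel

theorem Dop_apply (φ : LocallyConstant (Multiplicative ℤ_[p]) A) (z : Multiplicative ℤ_[p]) :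
    Dop p A φ z = φ (Multiplicative.ofAdd 1 * z) - φ z := rfl

theorem Dop_ker (φ : LocallyConstant (Multiplicative ℤ_[p]) A) (h : Dop p A φ = 0) (z) :
    φ z = φ 1 := by
  have h1 : ∀ n : ℕ, φ (Multiplicative.ofAdd (n : ℤ_[p])) = φ 1 := by
    intro n
    induction n with
    | zero => simp
    | succ n ih =>
      have := congrArg (fun t : LocallyConstant (Multiplicative ℤ_[p]) A =>
        t (Multiplicative.ofAdd (n : ℤ_[p]))) h
      simp only [Dop_apply, LocallyConstant.zero_apply, sub_eq_zero] at this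
      rw [← ih, ← this, ← ofAdd_add, add_comm]
      simp
  have hc : IsClosed {a : ℤ_[p] | φ (Multiplicative.ofAdd a) = φ 1} :=
    ((φ.isLocallyConstant.comp_continuous continuous_ofAdd).isClopen_fiber _).isClosed
  exact (PadicInt.denseRange_natCast (p := p)).induction_on
    (p := fun a => φ (Multiplicative.ofAdd a) = φ 1) z.toAdd hc h1

theorem Dop_nilpotent (hA : ∀ a : A, ∃ k : ℕ, p ^ k • a = 0)
    (φ : LocallyConstant (Multiplicative ℤ_[p]) A) : ∃ n : ℕ, (Dop p A)^[n] φ = 0 := by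
  refine lc_nilpotent pp_padic hA ⊤ _ (fun l _ φ => ?_) (fun φ h => ?_) φ
  · ext z
    simp [Dop_apply, mul_left_comm]
  · exact sub_eq_zero.2 (h _ trivial)

theorem exists_pow_sub {W : Set ℤ_[p]} (hW : W ∈ nhds (0 : ℤ_[p])) :
    ∃ k : ℕ, ∀ a : ℤ_[p], (p : ℤ_[p]) ^ k * a ∈ W := by
  obtain ⟨ε, hε, hball⟩ := Metric.mem_nhds_iff.1 hW
  obtain ⟨k, hk⟩ := PadicInt.exists_pow_neg_lt p hε
  refine ⟨k, fun a => hball ?_⟩
  rw [mem_ball_zero_iff, norm_mul, PadicInt.norm_p_pow]
  calc _ ≤ (p : ℝ) ^ (-k : ℤ) * 1 :=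
        mul_le_mul_of_nonneg_left a.norm_le_one (by positivity)
    _ < ε := by rwa [mul_one]

theorem isLocallyConstant_toZModPow (k : ℕ) :
    IsLocallyConstant (PadicInt.toZModPow k : ℤ_[p] → ZMod (p ^ k)) := by
  rw [IsLocallyConstant.iff_eventually_eq]
  intro x
  have hpos : (0 : ℝ) < (p : ℝ) ^ (-k : ℤ) := zpow_pos (by exact_mod_cast hp.out.pos) _
  filter_upwards [Metric.ball_mem_nhds x hpos] with y hy
  rw [← sub_eq_zero, ← map_sub, ← RingHom.mem_ker, PadicInt.ker_toZModPow,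
    ← PadicInt.norm_le_pow_iff_mem_span_pow]
  rw [Metric.mem_ball, dist_eq_norm] at hy
  exact hy.le

theorem Dop_surj (hA : ∀ a : A, p • a = 0) (φ : LocallyConstant (Multiplicative ℤ_[p]) A) :
    ∃ ψ, Dop p A ψ = φ := by
  obtain ⟨U, -, hU, -⟩ := exists_inv pp_padic φ
  obtain ⟨k, hk⟩ := exists_pow_sub (W := Multiplicative.ofAdd ⁻¹' (U : Set (Multiplicative ℤ_[p])))
    ((U.isOpen.preimage continuous_ofAdd).mem_nhds U.toSubgroup.one_mem)
  let f : ℕ → A := fun i => φ (Multiplicative.ofAdd (i : ℤ_[p]))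
  have hper : ∀ (a b : ℤ_[p]), φ (Multiplicative.ofAdd (a + (p : ℤ_[p]) ^ k * b))
      = φ (Multiplicative.ofAdd a) := fun a b => by
    rw [ofAdd_add]; exact hU _ (hk b) _
  have hf : ∀ i j, f (i + p ^ k * j) = f i := fun i j => by
    simp only [f, Nat.cast_add, Nat.cast_mul, Nat.cast_pow]
    exact hper _ _
  let S : ℕ → A := fun n => ∑ i ∈ Finset.range n, f i
  have hS1 : ∀ j : ℕ, S (p ^ k * j) = j • S (p ^ k) := by
    intro j
    induction j with
    | zero => simp [S]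
    | succ j ih =>
      rw [mul_add, mul_one, succ_nsmul, ← ih]
      simp only [S]
      rw [Finset.sum_range_add]
      congr 1
      exact Finset.sum_congr rfl fun i _ => by rw [add_comm, hf]
  have hS : Function.Periodic S (p ^ (k + 1)) := by
    intro n
    induction n with
    | zero => rw [zero_add, pow_succ, hS1, hA]; simp [S]
    | succ n ih =>
      rw [add_right_comm]
      simp only [S] at ih ⊢
      rw [Finset.sum_range_succ, Finset.sum_range_succ, ih, pow_succ, hf]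
  have : NeZero (p ^ (k + 1)) := ⟨pow_ne_zero _ hp.out.ne_zero⟩
  have hlc0 : IsLocallyConstant
      (fun z : Multiplicative ℤ_[p] => PadicInt.toZModPow (k + 1) z.toAdd) :=
    (isLocallyConstant_toZModPow (k + 1)).comp_continuous continuous_toAdd
  have hlc : IsLocallyConstant
      (fun z : Multiplicative ℤ_[p] => S (PadicInt.toZModPow (k + 1) z.toAdd).val) :=
    hlc0.comp fun t => S t.val
  refine ⟨⟨_, hlc⟩, ?_⟩
  ext z
  rw [Dop_apply, LocallyConstant.coe_mk, toAdd_mul, toAdd_ofAdd]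
  obtain ⟨t, ht⟩ : ∃ t, t = PadicInt.toZModPow (k + 1) z.toAdd := ⟨_, rfl⟩
  rw [← ht]
  have h1 : PadicInt.toZModPow (k + 1) (1 + z.toAdd) = ((t.val + 1 : ℕ) : ZMod (p ^ (k + 1))) := by
    rw [map_add, map_one, Nat.cast_add, ZMod.natCast_zmod_val, Nat.cast_one, ← ht,
      add_comm 1 t]
  rw [h1, ZMod.val_natCast, hS.map_mod_nat]
  simp only [S]
  rw [Finset.sum_range_succ, add_sub_cancel_left]
  have h2 : z.toAdd - (t.val : ℤ_[p]) ∈ RingHom.ker (PadicInt.toZModPow (p := p) (k + 1)) := by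
    rw [RingHom.mem_ker, map_sub, map_natCast, ZMod.natCast_zmod_val, ht, sub_self]
  rw [PadicInt.ker_toZModPow, Ideal.mem_span_singleton] at h2
  obtain ⟨b, hb⟩ := h2
  have h3 : z = Multiplicative.ofAdd ((t.val : ℤ_[p]) + (p : ℤ_[p]) ^ k * (p * b)) := by
    apply Multiplicative.toAdd.injective
    rw [toAdd_ofAdd, ← mul_assoc, ← pow_succ, ← hb]
    ring
  rw [h3, hper]

/-- a translation-equivariant operator on functions on `ℤ_[p]` whose image contains the
constants is surjective -/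
theorem surj_of_const (hA : ∀ a : A, p • a = 0)
    (T : LocallyConstant (Multiplicative ℤ_[p]) A →+ LocallyConstant (Multiplicative ℤ_[p]) A)
    (hT : ∀ g φ, T (tr g φ) = tr g (T φ))
    (hc : ∀ a : A, ∃ φ, T φ = LocallyConstant.const _ a) : Function.Surjective T := by
  have hD : ∀ φ, T (Dop p A φ) = Dop p A (T φ) := fun φ => by
    change T (tr _ φ - φ) = tr _ (T φ) - T φ
    rw [map_sub, hT]
  have key : ∀ (n : ℕ) (φ), (Dop p A)^[n] φ = 0 → ∃ ψ, T ψ = φ := by
    intro n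
    induction n with
    | zero => intro φ h; exact ⟨0, by rw [map_zero]; exact h.symm⟩
    | succ n ih =>
      intro φ h
      rw [Function.iterate_succ_apply] at h
      obtain ⟨ψ, hψ⟩ := ih _ h
      obtain ⟨χ, rfl⟩ := Dop_surj hA ψ
      rw [hD, ← sub_eq_zero, ← map_sub] at hψ
      obtain ⟨θ, hθ⟩ := hc ((T χ - φ) 1)
      refine ⟨χ - θ, ?_⟩
      rw [map_sub, hθ]
      ext z
      have := Dop_ker _ hψ z
      simp only [LocallyConstant.sub_apply, LocallyConstant.coe_const, Function.const_apply]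
        at this ⊢
      rw [← this]; abel
  intro φ
  obtain ⟨n, hn⟩ := Dop_nilpotent (p := p) (fun a => ⟨1, by rw [pow_one, hA]⟩) φ
  exact key n φ hn

theorem exists_const_one
    (T : LocallyConstant (Multiplicative ℤ_[p]) (ZMod p) →+
      LocallyConstant (Multiplicative ℤ_[p]) (ZMod p))
    (hT : ∀ g φ, T (tr g φ) = tr g (T φ)) (hne : ∃ φ, T φ ≠ 0) :
    ∃ φ, T φ = LocallyConstant.const _ 1 := by
  classical
  have hD : ∀ φ, T (Dop p _ φ) = Dop p _ (T φ) := fun φ => by
    change T (tr _ φ - φ) = tr _ (T φ) - T φ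
    rw [map_sub, hT]
  have key : ∀ (n : ℕ) (φ), T φ ≠ 0 → (Dop p _)^[n] (T φ) = 0 →
      ∃ ψ, T ψ ≠ 0 ∧ Dop p _ (T ψ) = 0 := by
    intro n
    induction n with
    | zero => intro φ h h'; exact absurd h' h
    | succ n ih =>
      intro φ h h'
      by_cases h0 : Dop p _ (T φ) = 0
      · exact ⟨φ, h, h0⟩
      · rw [Function.iterate_succ_apply, ← hD] at h'
        rw [← hD] at h0
        exact ih _ h0 h'
  obtain ⟨φ, hφ⟩ := hne
  obtain ⟨n, hn⟩ := Dop_nilpotent (p := p) (A := ZMod p)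
    (fun a => ⟨1, by simp⟩) (T φ)
  obtain ⟨ψ, hψ, hψ0⟩ := key n φ hφ hn
  have hc := Dop_ker _ hψ0
  have h1 : T ψ 1 ≠ 0 := fun h => hψ (by ext z; rw [hc, h]; rfl)
  refine ⟨((T ψ 1)⁻¹).val • ψ, ?_⟩
  rw [map_nsmul]
  ext z
  change ((T ψ 1)⁻¹).val • T ψ z = 1
  rw [hc z, nsmul_eq_mul, ZMod.natCast_zmod_val, inv_mul_cancel₀ h1]

end padic

end Pool.Agent.MP_de7343_al

end

-- part MP_de7343_al.Surj
section

/-!
The Fox-derivative operator `φ ↦ c(r)` and its surjectivity.
-/

namespace Pool.Agent.MP_de7343_al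

universe u v w

variable {p : ℕ} [hp : Fact p.Prime] {F : Type u} [Group F] [TopologicalSpace F] {X : Type u}
  {ι : X → F} {G : Type v} [Group G] [TopologicalSpace G] [IsTopologicalGroup G] [CompactSpace G]
  {A : Type w} [AddCommGroup A]

/-- cocycle with value `φ` at the basis element `x₁` and `0` at the others -/
structure IsE (ι : X → F) (ρ : F →ₜ* G) (x₁ : X) (φ : G → A) (c : F → G → A) : Prop where
  coc : IsCoc ρ c
  self : c (ι x₁) = φ
  other : ∀ x, x ≠ x₁ → c (ι x) = 0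

theorem IsBasis.exists_isE (hB : IsBasis p ι) (hG : PP p G)
    (hA : ∀ a : A, ∃ k : ℕ, p ^ k • a = 0) (ρ : F →ₜ* G) (x₁ : X) (φ : G → A)
    (hφ : IsLocallyConstant φ) : ∃ c, IsE ι ρ x₁ φ c := by
  classical
  obtain ⟨c, hc, hc'⟩ := hB.coc_exists hG hA ρ (fun x => if x = x₁ then φ else 0)
    (fun x => by
      split_ifs
      · exact hφ
      · exact IsLocallyConstant.const 0)
    ((Set.finite_singleton x₁).subset fun x hx => by
      by_contra h
      exact hx (if_neg h))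
  exact ⟨c, hc, by rw [hc', if_pos rfl], fun x hx => by rw [hc', if_neg hx]⟩

omit hp [IsTopologicalGroup G] [CompactSpace G] in
theorem IsBasis.isE_unique (hB : IsBasis p ι) {ρ : F →ₜ* G} {x₁ : X} {φ : G → A}
    {c c' : F → G → A} (h : IsE ι ρ x₁ φ c) (h' : IsE ι ρ x₁ φ c') : c = c' := by
  refine hB.coc_unique h.coc h'.coc fun x => ?_
  by_cases hx : x = x₁
  · rw [hx, h.self, h'.self]
  · rw [h.other x hx, h'.other x hx]

/-- the chosen cocycle -/
noncomputable def IsBasis.E (hB : IsBasis p ι) (hG : PP p G)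
    (hA : ∀ a : A, ∃ k : ℕ, p ^ k • a = 0) (ρ : F →ₜ* G) (x₁ : X) (φ : LocallyConstant G A) :
    F → G → A := (hB.exists_isE hG hA ρ x₁ φ φ.isLocallyConstant).choose

theorem IsBasis.E_spec (hB : IsBasis p ι) (hG : PP p G)
    (hA : ∀ a : A, ∃ k : ℕ, p ^ k • a = 0) (ρ : F →ₜ* G) (x₁ : X) (φ : LocallyConstant G A) :
    IsE ι ρ x₁ φ (hB.E hG hA ρ x₁ φ) :=
  (hB.exists_isE hG hA ρ x₁ φ φ.isLocallyConstant).choose_spec

/-- the operator `φ ↦ c(r)` -/
noncomputable def IsBasis.T (hB : IsBasis p ι) (hG : PP p G)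
    (hA : ∀ a : A, ∃ k : ℕ, p ^ k • a = 0) (ρ : F →ₜ* G) (x₁ : X) (r : F) :
    LocallyConstant G A →+ LocallyConstant G A :=
  AddMonoidHom.mk' (fun φ => ⟨hB.E hG hA ρ x₁ φ r, (hB.E_spec hG hA ρ x₁ φ).coc.lc_right r⟩)
    (fun φ ψ => by
      have h1 := hB.E_spec hG hA ρ x₁ φ
      have h2 := hB.E_spec hG hA ρ x₁ ψ
      have h3 : IsE ι ρ x₁ (φ + ψ : LocallyConstant G A)
          (hB.E hG hA ρ x₁ φ + hB.E hG hA ρ x₁ ψ) :=
        ⟨h1.coc.add h2.coc, by rw [Pi.add_apply, h1.self, h2.self]; rfl,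
          fun x hx => by rw [Pi.add_apply, h1.other x hx, h2.other x hx, add_zero]⟩
      ext z
      exact congrFun (congrFun (hB.isE_unique (hB.E_spec hG hA ρ x₁ (φ + ψ)) h3) r) z)

theorem IsBasis.T_eq (hB : IsBasis p ι) (hG : PP p G)
    (hA : ∀ a : A, ∃ k : ℕ, p ^ k • a = 0) {ρ : F →ₜ* G} {x₁ : X} (r : F)
    {φ : LocallyConstant G A} {c : F → G → A} (h : IsE ι ρ x₁ φ c) (z : G) :
    hB.T hG hA ρ x₁ r φ z = c r z :=
  congrFun (congrFun (hB.isE_unique (hB.E_spec hG hA ρ x₁ φ) h) r) z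

theorem IsBasis.T_tr (hB : IsBasis p ι) (hG : PP p G)
    (hA : ∀ a : A, ∃ k : ℕ, p ^ k • a = 0) (ρ : F →ₜ* G) (x₁ : X) (r : F) (g : G)
    (φ : LocallyConstant G A) :
    hB.T hG hA ρ x₁ r (tr g φ) = tr g (hB.T hG hA ρ x₁ r φ) := by
  have h1 := hB.E_spec hG hA ρ x₁ φ
  have h2 : IsE ι ρ x₁ (tr g φ) (fun u z => hB.E hG hA ρ x₁ φ u (g * z)) :=
    ⟨h1.coc.transl g, by funext z; rw [h1.self]; rfl,
      fun x hx => by funext z; rw [h1.other x hx]; rfl⟩
  ext z
  rw [hB.T_eq hG hA r h2]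
  rfl

theorem IsBasis.T_map (hB : IsBasis p ι) (hG : PP p G)
    (hA : ∀ a : A, ∃ k : ℕ, p ^ k • a = 0) {B : Type*} [AddCommGroup B]
    (hB' : ∀ a : B, ∃ k : ℕ, p ^ k • a = 0) (f : A →+ B) (ρ : F →ₜ* G) (x₁ : X) (r : F)
    (φ : LocallyConstant G A) :
    hB.T hG hB' ρ x₁ r (φ.map f) = (hB.T hG hA ρ x₁ r φ).map f := by
  have h1 := hB.E_spec hG hA ρ x₁ φ
  have h2 : IsE ι ρ x₁ (φ.map f) (fun u z => f (hB.E hG hA ρ x₁ φ u z)) :=
    ⟨h1.coc.map f, by funext z; rw [h1.self]; rfl,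
      fun x hx => by funext z; rw [h1.other x hx]; exact map_zero f⟩
  ext z
  rw [hB.T_eq hG hB' r h2]
  rfl

theorem IsBasis.T_pull (hB : IsBasis p ι) (hG : PP p G)
    (hA : ∀ a : A, ∃ k : ℕ, p ^ k • a = 0) {G' : Type*} [Group G'] [TopologicalSpace G']
    [IsTopologicalGroup G'] [CompactSpace G'] (hG' : PP p G') (ρ : F →ₜ* G) (π : G →ₜ* G')
    (x₁ : X) (r : F) (φ : LocallyConstant G' A) :
    hB.T hG hA ρ x₁ r (φ.comap π.toContinuousMap)
      = (hB.T hG' hA (π.comp ρ) x₁ r φ).comap π.toContinuousMap := by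
  have h1 := hB.E_spec hG' hA (π.comp ρ) x₁ φ
  have h2 : IsE ι ρ x₁ (φ.comap π.toContinuousMap)
      (fun u z => hB.E hG' hA (π.comp ρ) x₁ φ u (π z)) :=
    ⟨h1.coc.pull, by funext z; rw [h1.self]; rfl,
      fun x hx => by funext z; rw [h1.other x hx]; rfl⟩
  ext z
  rw [hB.T_eq hG hA r h2]
  rfl

theorem zmod_tors (a : ZMod p) : ∃ k : ℕ, p ^ k • a = 0 := ⟨1, by simp⟩

theorem IsBasis.T_padic_surj (hB : IsBasis p ι) (hA : ∀ a : A, p • a = 0)
    (hA' : ∀ a : A, ∃ k : ℕ, p ^ k • a = 0)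
    (π : F →ₜ* Multiplicative ℤ_[p]) (x₁ : X) (r : F)
    (hne : ∃ φ, hB.T pp_padic zmod_tors π x₁ r φ ≠ 0) :
    Function.Surjective (hB.T pp_padic hA' π x₁ r) := by
  refine surj_of_const hA _ (hB.T_tr _ _ _ _ _) fun a => ?_
  obtain ⟨φ, hφ⟩ := exists_const_one _ (hB.T_tr _ _ _ _ _) hne
  let : Module (ZMod p) A := AddCommGroup.zmodModule hA
  let f : ZMod p →+ A := (LinearMap.toSpanSingleton (ZMod p) A a).toAddMonoidHom
  refine ⟨φ.map f, ?_⟩
  rw [hB.T_map pp_padic zmod_tors hA' f, hφ]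
  ext z
  exact one_smul (ZMod p) a

theorem IsBasis.T_surj_elem (hB : IsBasis p ι) (hG : PP p G) (hA : ∀ a : A, p • a = 0)
    (hA' : ∀ a : A, ∃ k : ℕ, p ^ k • a = 0) (ρ : F →ₜ* G)
    (π : G →ₜ* Multiplicative ℤ_[p]) (s : C(Multiplicative ℤ_[p], G)) (hs : ∀ a, π (s a) = a)
    (x₁ : X) (r : F) (hne : ∃ φ, hB.T pp_padic zmod_tors (π.comp ρ) x₁ r φ ≠ 0) :
    Function.Surjective (hB.T hG hA' ρ x₁ r) := by
  let : Module (ZMod p) A := AddCommGroup.zmodModule hA
  have hsurj := hB.T_padic_surj hA hA' (π.comp ρ) x₁ r hne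
  obtain ⟨σ, hσ⟩ := LinearMap.exists_rightInverse_of_surjective
    ((hB.T pp_padic hA' (π.comp ρ) x₁ r).toZModLinearMap p) (LinearMap.range_eq_top.2 hsurj)
  have hσ' : ∀ ψ, hB.T pp_padic hA' (π.comp ρ) x₁ r (σ ψ) = ψ := fun ψ =>
    LinearMap.congr_fun hσ ψ
  let l : G → G := fun z => z * (s (π z))⁻¹
  have hlc : Continuous l := by fun_prop
  let Φ : LocallyConstant G A → G → LocallyConstant (Multiplicative ℤ_[p]) A := fun φ z =>
    (tr (l z) φ).comap s
  have hΦ : ∀ φ, IsLocallyConstant fun z => σ (Φ φ z) (π z) := by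
    intro φ
    obtain ⟨U, -, -, hU⟩ := exists_inv hG φ
    rw [IsLocallyConstant.iff_eventually_eq]
    intro z₀
    have h1 : ∀ᶠ z in nhds z₀, l z * (l z₀)⁻¹ ∈ U := by
      have hc : Continuous fun z => l z * (l z₀)⁻¹ := by fun_prop
      refine hc.continuousAt.eventually (U.isOpen.mem_nhds ?_)
      simp only [mul_inv_cancel]
      exact U.toSubgroup.one_mem
    have h2 : ∀ᶠ z in nhds z₀, σ (Φ φ z₀) (π z) = σ (Φ φ z₀) (π z₀) :=
      ((σ (Φ φ z₀)).isLocallyConstant.comp_continuous π.continuous).eventually_eq z₀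
    filter_upwards [h1, h2] with z hz1 hz2
    have : Φ φ z = Φ φ z₀ := by
      ext a
      change φ (l z * s a) = φ (l z₀ * s a)
      rw [← hU _ hz1 (l z₀ * s a)]
      congr 1
      group
    rw [this, hz2]
  let σ' : LocallyConstant G A →+ LocallyConstant G A :=
    AddMonoidHom.mk' (fun φ => ⟨fun z => σ (Φ φ z) (π z), hΦ φ⟩) (fun φ ψ => by
      ext z
      change σ (Φ φ z + Φ ψ z) (π z) = σ (Φ φ z) (π z) + σ (Φ ψ z) (π z)
      rw [map_add]; rfl)
  let T := hB.T hG hA' ρ x₁ r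
  let N : LocallyConstant G A →+ LocallyConstant G A := AddMonoidHom.id _ - T.comp σ'
  have hNdef : ∀ φ, N φ = φ - T (σ' φ) := fun _ => rfl
  have hnil : ∀ φ, ∃ n : ℕ, N^[n] φ = 0 := by
    refine lc_nilpotent hG hA' π.toMonoidHom.ker N (fun g hg φ => ?_) (fun φ hφ => ?_)
    · have hg' : π g = 1 := hg
      have : σ' (tr g φ) = tr g (σ' φ) := by
        ext z
        change σ (Φ (tr g φ) z) (π z) = σ (Φ φ (g * z)) (π (g * z))
        have e1 : π (g * z) = π z := by rw [map_mul, hg', one_mul]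
        have e2 : Φ (tr g φ) z = Φ φ (g * z) := by
          ext a
          change φ (g * (z * (s (π z))⁻¹ * s a)) = φ (g * z * (s (π (g * z)))⁻¹ * s a)
          rw [e1]
          simp only [mul_assoc]
        rw [e1, e2]
      rw [hNdef, hNdef, this, hB.T_tr]
      rfl
    · have e0 : ∀ g, π g = 1 → ∀ z, φ (g * z) = φ z := fun g hg z =>
        congrArg (fun t : LocallyConstant G A => t z) (hφ g hg)
      have hl1 : ∀ z, π (l z) = 1 := fun z => by
        simp only [l]
        rw [map_mul, map_inv, hs, mul_inv_cancel]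
      have e1 : σ' φ = (σ (φ.comap s)).comap π.toContinuousMap := by
        ext z
        change σ (Φ φ z) (π z) = σ (φ.comap s) (π z)
        have : Φ φ z = φ.comap s := by
          ext a
          exact e0 _ (hl1 z) _
        rw [this]
      rw [hNdef, e1, hB.T_pull hG hA' pp_padic, hσ', sub_eq_zero]
      ext z
      change φ z = φ (s (π z))
      rw [← e0 _ (hl1 z) (s (π z))]
      simp [l]
  have key : ∀ (n : ℕ) (φ), N^[n] φ = 0 → ∃ ψ, T ψ = φ := by
    intro n
    induction n with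
    | zero => intro φ h; exact ⟨0, by rw [map_zero]; exact h.symm⟩
    | succ n ih =>
      intro φ h
      rw [Function.iterate_succ_apply] at h
      obtain ⟨ψ, hψ⟩ := ih _ h
      refine ⟨ψ + σ' φ, ?_⟩
      rw [map_add, hψ, hNdef, sub_add_cancel]
  intro φ
  obtain ⟨n, hn⟩ := hnil φ
  exact key n φ hn

theorem IsBasis.T_surj_pow (hB : IsBasis p ι) (hG : PP p G) (ρ : F →ₜ* G)
    (π : G →ₜ* Multiplicative ℤ_[p]) (s : C(Multiplicative ℤ_[p], G)) (hs : ∀ a, π (s a) = a)
    (x₁ : X) (r : F) (hne : ∃ φ, hB.T pp_padic zmod_tors (π.comp ρ) x₁ r φ ≠ 0) (k : ℕ) :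
    ∀ (A : Type w) [AddCommGroup A] (hA : ∀ a : A, ∃ k : ℕ, p ^ k • a = 0),
      (∀ a : A, p ^ k • a = 0) → Function.Surjective (hB.T hG hA ρ x₁ r) := by
  induction k with
  | zero =>
    intro A _ hA h0 φ
    refine ⟨0, ?_⟩
    ext z
    have := h0 (φ z)
    rw [pow_zero, one_smul] at this
    rw [this, map_zero]; rfl
  | succ k ih =>
    intro A _ hA h0 φ
    let M : AddSubgroup A := (nsmulAddMonoidHom p : A →+ A).range
    have hM : ∀ a : M, p ^ k • a = 0 := by
      rintro ⟨_, a, rfl⟩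
      apply Subtype.ext
      change p ^ k • p • a = 0
      rw [← mul_smul, ← pow_succ, h0]
    have hM' : ∀ a : M, ∃ k : ℕ, p ^ k • a = 0 := fun a => ⟨k, hM a⟩
    have hQ : ∀ b : A ⧸ M, p • b = 0 := by
      intro b
      obtain ⟨a, rfl⟩ := QuotientAddGroup.mk_surjective b
      rw [← QuotientAddGroup.mk_nsmul, QuotientAddGroup.eq_zero_iff]
      exact ⟨a, rfl⟩
    have hQ' : ∀ b : A ⧸ M, ∃ k : ℕ, p ^ k • b = 0 := fun b => ⟨1, by rw [pow_one, hQ]⟩
    obtain ⟨ψ, hψ⟩ := hB.T_surj_elem hG hQ hQ' ρ π s hs x₁ r hne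
      (φ.map (QuotientAddGroup.mk' M))
    have e1 : (ψ.map Quotient.out).map (QuotientAddGroup.mk' M) = ψ := by
      ext z
      exact QuotientAddGroup.out_eq' (ψ z)
    rw [← e1, hB.T_map hG hA hQ'] at hψ
    let χ := φ - hB.T hG hA ρ x₁ r (ψ.map Quotient.out)
    have hχ : ∀ z, χ z ∈ M := by
      intro z
      rw [← QuotientAddGroup.eq_zero_iff]
      change QuotientAddGroup.mk' M (φ z - _) = 0
      rw [map_sub, sub_eq_zero]
      exact (congrArg (fun t : LocallyConstant G (A ⧸ M) => t z) hψ).symm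
    let χ' : LocallyConstant G M := ⟨fun z => ⟨χ z, hχ z⟩,
      IsLocallyConstant.desc _ Subtype.val χ.isLocallyConstant Subtype.val_injective⟩
    obtain ⟨θ, hθ⟩ := ih M hM' hM χ'
    refine ⟨ψ.map Quotient.out + θ.map M.subtype, ?_⟩
    rw [map_add, hB.T_map hG hM' hA, hθ]
    ext z
    change _ + (φ z - _) = φ z
    exact add_sub_cancel _ _

theorem IsBasis.T_surj (hB : IsBasis p ι) (hG : PP p G) (hA : ∀ a : A, ∃ k : ℕ, p ^ k • a = 0)
    (ρ : F →ₜ* G)
    (π : G →ₜ* Multiplicative ℤ_[p]) (s : C(Multiplicative ℤ_[p], G)) (hs : ∀ a, π (s a) = a)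
    (x₁ : X) (r : F) (hne : ∃ φ, hB.T pp_padic zmod_tors (π.comp ρ) x₁ r φ ≠ 0) :
    Function.Surjective (hB.T hG hA ρ x₁ r) := by
  intro φ
  obtain ⟨k, hk⟩ := lc_torsion hA φ
  let M : AddSubgroup A := (nsmulAddMonoidHom (p ^ k) : A →+ A).ker
  have hM : ∀ a : M, p ^ k • a = 0 := fun a => Subtype.ext a.2
  have hM' : ∀ a : M, ∃ k : ℕ, p ^ k • a = 0 := fun a => ⟨k, hM a⟩
  have hφ : ∀ z, φ z ∈ M := fun z => congrArg (fun t : LocallyConstant G A => t z) hk
  let φ' : LocallyConstant G M := ⟨fun z => ⟨φ z, hφ z⟩,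
    IsLocallyConstant.desc _ Subtype.val φ.isLocallyConstant Subtype.val_injective⟩
  obtain ⟨θ, hθ⟩ := hB.T_surj_pow hG ρ π s hs x₁ r hne k M hM' hM φ'
  refine ⟨θ.map M.subtype, ?_⟩
  rw [hB.T_map hG hM' hA, hθ]
  rfl

/-- a continuous section of a continuous homomorphism onto `ℤ_[p]` -/
theorem exists_section (hF : IsProP p F) (π : F →ₜ* Multiplicative ℤ_[p]) (y : F)
    (hy : π y = Multiplicative.ofAdd 1) :
    ∃ s : C(Multiplicative ℤ_[p], F), ∀ a, π (s a) = a := by
  have := hF.topGroup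
  have := hF.compact
  have := hF.totDisc
  have := hF.t2
  let Γ : Subgroup F := (Subgroup.zpowers y).topologicalClosure
  have hΓ : IsClosed (Γ : Set F) := Subgroup.isClosed_topologicalClosure _
  have : CompactSpace Γ := isCompact_iff_compactSpace.1 hΓ.isCompact
  let f : Γ →* Multiplicative ℤ_[p] := π.toMonoidHom.comp Γ.subtype
  have hfc : Continuous f := π.continuous.comp continuous_subtype_val
  have hzp : ∀ n : ℤ, π (y ^ n) = Multiplicative.ofAdd (n : ℤ_[p]) := fun n => by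
    rw [map_zpow, hy, ← ofAdd_zsmul, zsmul_one]
  have hsurj : Function.Surjective f := by
    intro a
    have hc : IsClosed {b : ℤ_[p] | Multiplicative.ofAdd b ∈ Set.range f} :=
      (isCompact_range hfc).isClosed.preimage continuous_ofAdd
    exact (PadicInt.denseRange_intCast (p := p)).induction_on
      (p := fun b => Multiplicative.ofAdd b ∈ Set.range f) a.toAdd hc fun n =>
        ⟨⟨y ^ n, Subgroup.le_topologicalClosure _ (Subgroup.zpow_mem_zpowers y n)⟩, hzp n⟩
  have hinj : Function.Injective f := by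
    rw [injective_iff_map_eq_one]
    intro γ hγ
    by_contra hne
    have hne' : (γ : F) ≠ 1 := fun h => hne (Subtype.ext h)
    obtain ⟨U, hU, hUp⟩ := hF.pp {(γ : F)}ᶜ isOpen_compl_singleton hne'.symm
    obtain ⟨k, hk⟩ := hUp y
    have hcl : IsClosed {x : F | PadicInt.toZModPow k (π x).toAdd = 0 → x ∈ U} := by
      have h1 : IsLocallyConstant fun x : F => PadicInt.toZModPow k (π x).toAdd :=
        (isLocallyConstant_toZModPow k).comp_continuous (continuous_toAdd.comp π.continuous)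
      have : {x : F | PadicInt.toZModPow k (π x).toAdd = 0 → x ∈ U}
          = {x : F | PadicInt.toZModPow k (π x).toAdd = 0}ᶜ ∪ (U : Set F) := by
        ext x
        simp only [Set.mem_ofPred_eq, Set.mem_union, Set.mem_compl_iff, SetLike.mem_coe]
        tauto
      rw [this]
      exact (h1.isClopen_fiber 0).compl.isClosed.union U.toOpenSubgroup.isClosed
    have hsub : (Subgroup.zpowers y : Set F) ⊆
        {x : F | PadicInt.toZModPow k (π x).toAdd = 0 → x ∈ U} := by
      rintro _ ⟨n, rfl⟩ hn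
      change PadicInt.toZModPow k (π (y ^ n)).toAdd = 0 at hn
      rw [hzp, toAdd_ofAdd, map_intCast, ZMod.intCast_zmod_eq_zero_iff_dvd] at hn
      obtain ⟨m, rfl⟩ := hn
      change y ^ (((p ^ k : ℕ) : ℤ) * m) ∈ U
      rw [zpow_mul, zpow_natCast]
      exact U.toSubgroup.zpow_mem hk m
    have hγU : (γ : F) ∈ U := by
      refine closure_minimal hsub hcl γ.2 ?_
      have : π γ = 1 := hγ
      rw [this, toAdd_one, map_zero]
    exact hU hγU rfl
  let e : Γ ≃ₜ Multiplicative ℤ_[p] :=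
    Continuous.homeoOfEquivCompactToT2 (f := Equiv.ofBijective f ⟨hinj, hsurj⟩) hfc
  exact ⟨⟨fun a => (e.symm a : F), continuous_subtype_val.comp e.symm.continuous⟩,
    fun a => e.apply_symm_apply a⟩

/-- choice of the relator -/
theorem IsBasis.exists_relator (hB : IsBasis p ι) {x y : X} (hxy : x ≠ y) (g : F)
    (N : OpenNormalSubgroup F) :
    ∃ (r : F) (π : F →ₜ* Multiplicative ℤ_[p]) (x₁ : X) (t : F), g⁻¹ * r ∈ N ∧ π r = 1 ∧
      π t = Multiplicative.ofAdd 1 ∧ ∃ φ, hB.T pp_padic zmod_tors π x₁ r φ ≠ 0 := by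
  classical
  have hα : ∀ x : X, ∃ α : F →ₜ* Multiplicative ℤ_[p], α (ι x) = Multiplicative.ofAdd 1 ∧
      ∀ x', x' ≠ x → α (ι x') = 1 := by
    intro x
    obtain ⟨α, hα⟩ := hB.lift_padic (fun x' => if x' = x then Multiplicative.ofAdd 1 else 1)
      ((Set.finite_singleton x).subset fun x' hx' => by
        by_contra h
        exact hx' (if_neg h))
    exact ⟨α, by rw [hα, if_pos rfl], fun x' hx' => by rw [hα, if_neg hx']⟩
  choose α hα1 hα0 using hα
  have main : ∀ {x y : X}, x ≠ y → (α x g).toAdd ∣ (α y g).toAdd →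
      ∃ (r : F) (π : F →ₜ* Multiplicative ℤ_[p]) (x₁ : X) (t : F), g⁻¹ * r ∈ N ∧ π r = 1 ∧
      π t = Multiplicative.ofAdd 1 ∧ ∃ φ, hB.T pp_padic zmod_tors π x₁ r φ ≠ 0 := by
    intro x y hxy ⟨b, hb⟩
    let π : F →ₜ* Multiplicative ℤ_[p] :=
      { toFun := fun u => Multiplicative.ofAdd ((α y u).toAdd - (α x u).toAdd * b)
        map_one' := by simp
        map_mul' := fun u v => by
          rw [map_mul (α y), map_mul (α x), toAdd_mul, toAdd_mul, ← ofAdd_add]
          congr 1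
          ring
        continuous_toFun := by fun_prop }
    have hπ : ∀ u, π u = Multiplicative.ofAdd ((α y u).toAdd - (α x u).toAdd * b) := fun _ => rfl
    have hπg : π g = 1 := by rw [hπ, hb, sub_self]; rfl
    have hπy : π (ι y) = Multiplicative.ofAdd 1 := by
      rw [hπ, hα1, hα0 x y hxy.symm]; simp
    by_cases hne : ∃ φ, hB.T pp_padic zmod_tors π x g φ ≠ 0
    · exact ⟨g, π, x, ι y, by rw [inv_mul_cancel]; exact N.toSubgroup.one_mem, hπg, hπy, hne⟩
    push Not at hne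
    obtain ⟨k, hk⟩ := hB.proP.pow_mem N (ι y)
    let v : F := ι y ^ p ^ k
    let w : F := ι x * v * (ι x)⁻¹ * v⁻¹
    have hwN : w ∈ N := N.toSubgroup.mul_mem (N.isNormal'.conj_mem v hk _) (N.toSubgroup.inv_mem hk)
    have hπw : π w = 1 := by
      simp only [w, map_mul, map_inv]
      rw [mul_comm (π (ι x)) (π v)]
      simp
    have hπv : π v = Multiplicative.ofAdd ((p : ℤ_[p]) ^ k) := by
      simp only [v]
      rw [map_pow, hπy, ← ofAdd_nsmul, nsmul_one, Nat.cast_pow]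
    refine ⟨g * w, π, x, ι y, by rw [inv_mul_cancel_left]; exact hwN,
      by rw [map_mul, hπg, hπw, one_mul], hπy, ?_⟩
    have hlc0 : IsLocallyConstant
        (fun z : Multiplicative ℤ_[p] => PadicInt.toZModPow (k + 1) z.toAdd) :=
      (isLocallyConstant_toZModPow (k + 1)).comp_continuous continuous_toAdd
    let φ : LocallyConstant (Multiplicative ℤ_[p]) (ZMod p) :=
      ⟨_, hlc0.comp fun t => if t = 0 then 1 else 0⟩
    have hφ1 : φ 1 = 1 := by simp [φ]
    have hφv : φ (π v) = 0 := by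
      have : PadicInt.toZModPow (k + 1) ((p : ℤ_[p]) ^ k) ≠ 0 := by
        rw [← Nat.cast_pow, map_natCast, Ne, ZMod.natCast_eq_zero_iff,
          Nat.pow_dvd_pow_iff_le_right hp.out.one_lt]
        omega
      rw [hπv]
      exact if_neg this
    refine ⟨φ, fun h0 => ?_⟩
    have hE := hB.E_spec pp_padic zmod_tors π x φ
    set c := hB.E pp_padic zmod_tors π x φ
    have hcv : ∀ z, c v z = 0 := hE.coc.zer.pow_mem
      (fun z => by rw [hE.other y hxy.symm]; rfl) (p ^ k)
    have hcv' : ∀ z, c v⁻¹ z = 0 := hE.coc.zer.inv_mem hcv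
    have hg0 : c g 1 = 0 := by rw [← hB.T_eq pp_padic zmod_tors g hE, hne]; rfl
    have h1 : c (g * w) 1 = 0 := by rw [← hB.T_eq pp_padic zmod_tors _ hE, h0]; rfl
    rw [hE.coc.mul, hg0, zero_add, hπg, one_mul] at h1
    simp only [w] at h1
    rw [hE.coc.mul, hE.coc.mul, hE.coc.mul, hcv, hcv', hE.coc.inv, hE.self, one_mul, map_mul π,
      mul_comm (π (ι x)) (π v), mul_inv_cancel_right, hφ1, hφv] at h1
    simp at h1
  rcases ValuationRing.dvd_total (α x g).toAdd (α y g).toAdd with h | h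
  · exact main hxy h
  · exact main hxy.symm h

end Pool.Agent.MP_de7343_al

end

-- part MP_de7343_al.Main
section

/-!
The cellular cochain complex of the Cayley complex of a one-relator pro-p group.
-/

namespace Pool.Agent.MP_de7343_al

open CategoryTheory TopRep ContRepresentation

universe u

variable {k : Type} [Ring k] [TopologicalSpace k]
  {F : Type u} [Group F] [TopologicalSpace F] [CompactSpace F]
  {G : Type u} [Group G] [TopologicalSpace G] [IsTopologicalGroup G] [CompactSpace G]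

/-- continuous cocycles -/
def Zsub (ρ : F →ₜ* G) (A : TopRep.{u} k G) : Submodule k C(F × G, A) where
  carrier := {c | ∀ u v z, c (u * v, z) = c (u, z) + c (v, z * ρ u)}
  add_mem' := fun {a b} ha hb u v z => by
    simp only [ContinuousMap.add_apply, ha u v z, hb u v z]; abel
  zero_mem' := fun u v z => by simp
  smul_mem' := fun t c hc u v z => by
    simp only [ContinuousMap.smul_apply, hc u v z, smul_add]

omit [IsTopologicalGroup G] in
theorem Good.discZ {A : TopRep.{u} k G} (hA : Good A) (ρ : F →ₜ* G) :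
    DiscreteTopology (Zsub ρ A) := by
  have := hA.disc
  have : DiscreteTopology C(F × G, A) := discreteC
  infer_instance

/-- the action on cocycles -/
def Zrep {A : TopRep.{u} k G} (hA : Good A) (ρ : F →ₜ* G) : ContRepresentation k G (Zsub ρ A) where
  toMonoidHom.toFun g :=
    { toFun := fun c => ⟨⟨fun x => A.ρ g (c.1 (x.1, g⁻¹ * x.2)), by fun_prop⟩, fun u v z => by
        change A.ρ g (c.1 (u * v, g⁻¹ * z)) = A.ρ g (c.1 (u, g⁻¹ * z)) +
          A.ρ g (c.1 (v, g⁻¹ * (z * ρ u)))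
        rw [c.2, map_add, mul_assoc]⟩
      map_add' := fun a b => by ext x; simp
      map_smul' := fun t a => by ext x; simp
      cont := by have := hA.discZ ρ; exact continuous_of_discreteTopology }
  toMonoidHom.map_one' := by ext c x; simp
  toMonoidHom.map_mul' g h := by ext c x; simp [mul_assoc]

theorem Zrep_apply {A : TopRep.{u} k G} (hA : Good A) (ρ : F →ₜ* G) (g : G) (c : Zsub ρ A)
    (x : F × G) : (Zrep hA ρ g c).1 x = A.ρ g (c.1 (x.1, g⁻¹ * x.2)) := rfl

/-- the module of cocycles -/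
abbrev ZR {A : TopRep.{u} k G} (hA : Good A) (ρ : F →ₜ* G) : TopRep.{u} k G :=
  TopRep.of (Zrep hA ρ)

theorem good_ZR [IsTopologicalGroup F] {A : TopRep.{u} k G} (hA : Good A) (ρ : F →ₜ* G) :
    Good (ZR hA ρ) := by
  refine ⟨hA.discZ ρ, ?_⟩
  change Continuous (fun x : G × Zsub ρ A => Zrep hA ρ x.1 x.2)
  refine continuous_induced_rng.2 ?_
  refine ContinuousMap.continuous_of_continuous_uncurry _ ?_
  change Continuous (fun y : (G × Zsub ρ A) × (F × G) =>
    A.ρ y.1.1 (y.1.2.1 (y.2.1, y.1.1⁻¹ * y.2.2)))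
  have h1 : Continuous (fun y : (G × Zsub ρ A) × (F × G) =>
    y.1.2.1 (y.2.1, y.1.1⁻¹ * y.2.2)) := by fun_prop
  exact hA.cont.comp (f := fun y : (G × Zsub ρ A) × (F × G) =>
    (y.1.1, y.1.2.1 (y.2.1, y.1.1⁻¹ * y.2.2))) (Continuous.prodMk (by fun_prop) h1)

omit [CompactSpace F] [IsTopologicalGroup G] [CompactSpace G] in
theorem Good.isCoc {A : TopRep.{u} k G} (hA : Good A) {ρ : F →ₜ* G} (c : Zsub ρ A) :
    IsCoc ρ (fun u z => c.1 (u, z)) := by
  have := hA.disc
  exact ⟨(IsLocallyConstant.iff_continuous _).2 c.1.continuous, c.2⟩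

/-- from a locally constant cocycle to a continuous one -/
def IsCoc.toZ {A : TopRep.{u} k G} {ρ : F →ₜ* G} {c : F → G → A} (h : IsCoc ρ c) : Zsub ρ A :=
  ⟨⟨fun x => c x.1 x.2, h.lc.continuous⟩, h.mul⟩

variable {p : ℕ} [hp : Fact p.Prime] {X : Type u} {ι : X → F}

omit hp [CompactSpace F] [IsTopologicalGroup G] [CompactSpace G] in
theorem Z_ext (hB : IsBasis p ι) {A : TopRep.{u} k G} (hA : Good A) {ρ : F →ₜ* G}
    {c c' : Zsub ρ A} (h : ∀ x z, c.1 (ι x, z) = c'.1 (ι x, z)) : c = c' := by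
  have := hB.coc_unique (hA.isCoc c) (hA.isCoc c') fun x => funext (h x)
  ext x
  exact congrFun (congrFun this x.1) x.2

theorem relInj_ZR (hB : IsBasis p ι) (hG : PP p G) {A : TopRep.{u} k G} (hA : Good A)
    (hAp : ∀ a : A, ∃ n : ℕ, p ^ n • a = 0) (ρ : F →ₜ* G) : RelInj (ZR hA ρ) := by
  have := hA.disc
  have := hA.discZ ρ
  have hex : ∀ Φ : C(G, Zsub ρ A), ∃ c : Zsub ρ A, ∀ x z, c.1 (ι x, z) = (Φ z).1 (ι x, z) := by
    intro Φ
    have hfin : (Set.range Φ).Finite := (isCompact_range Φ.continuous).finite_of_discrete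
    obtain ⟨c, hc, hc'⟩ := hB.coc_exists hG hAp ρ (fun x z => (Φ z).1 (ι x, z))
      (fun x => by
        have h1 : IsLocallyConstant Φ := (IsLocallyConstant.iff_continuous _).2 Φ.continuous
        rw [IsLocallyConstant.iff_eventually_eq]
        intro z₀
        filter_upwards [h1.eventually_eq z₀, ((hA.isCoc (Φ z₀)).lc_right (ι x)).eventually_eq z₀]
          with z hz1 hz2
        rw [hz1, hz2])
      ((hfin.biUnion fun c _ => hB.coc_finite (hA.isCoc c)).subset fun x hx => by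
        obtain ⟨z, hz⟩ := Function.ne_iff.1 hx
        exact Set.mem_biUnion ⟨z, rfl⟩ fun h => hz (congrFun h z))
    exact ⟨hc.toZ, fun x z => congrFun (hc' x) z⟩
  choose s hs using hex
  have : DiscreteTopology C(G, Zsub ρ A) := discreteC
  let s' : C(G, Zsub ρ A) →L[k] Zsub ρ A :=
    { toFun := s
      map_add' := fun Φ Ψ => Z_ext hB hA fun x z => by
        change _ = (s Φ).1 _ + (s Ψ).1 _
        rw [hs, hs, hs]; rfl
      map_smul' := fun t Φ => Z_ext hB hA fun x z => by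
        change _ = t • (s Φ).1 _
        rw [hs, hs]; rfl
      cont := continuous_of_discreteTopology }
  refine ⟨TopRep.ofHom ⟨s', fun g => ?_⟩, fun a => ?_⟩
  · refine ContinuousLinearMap.ext fun Φ => Z_ext hB hA fun x z => ?_
    change (s _).1 _ = A.ρ g ((s Φ).1 (ι x, g⁻¹ * z))
    rw [hs, hs]; rfl
  · refine Z_ext hB hA fun x z => ?_
    change (s _).1 _ = _
    rw [hs]; rfl

/-- the coboundary map -/
def delta {A : TopRep.{u} k G} (hA : Good A) (ρ : F →ₜ* G) : A.coind₁ ⟶ ZR hA ρ :=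
  TopRep.ofHom
    { toFun := fun f => ⟨⟨fun x => f (x.2 * ρ x.1) - f x.2, by fun_prop⟩, fun u v z => by
        change f (z * ρ (u * v)) - f z = f (z * ρ u) - f z + (f (z * ρ u * ρ v) - f (z * ρ u))
        rw [map_mul ρ, mul_assoc]; abel⟩
      map_add' := fun a b => by ext x; simp; abel
      map_smul' := fun t a => by ext x; simp [smul_sub]
      cont := hA.coind.disc.1 ▸ continuous_bot
      isIntertwining' := fun g => by
        ext f x
        simp [Zrep_apply, mul_assoc] }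

theorem delta_apply {A : TopRep.{u} k G} (hA : Good A) (ρ : F →ₜ* G) (f : C(G, A)) (x : F × G) :
    ((delta hA ρ).hom f : Zsub ρ A).1 x = f (x.2 * ρ x.1) - f x.2 := rfl

/-- evaluation at the relator -/
def evalR {A : TopRep.{u} k G} (hA : Good A) (ρ : F →ₜ* G) (r : F) : ZR hA ρ ⟶ A.coind₁ :=
  TopRep.ofHom
    { toFun := fun c => ⟨fun z => c.1 (r, z), by fun_prop⟩
      map_add' := fun a b => rfl
      map_smul' := fun t a => rfl
      cont := by have := hA.discZ ρ; exact continuous_of_discreteTopology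
      isIntertwining' := fun g => rfl }

theorem evalR_apply {A : TopRep.{u} k G} (hA : Good A) (ρ : F →ₜ* G) (r : F) (c : Zsub ρ A)
    (z : G) : ((evalR hA ρ r).hom c : C(G, A)) z = c.1 (r, z) := rfl

theorem van_of_relator [IsTopologicalGroup F] [T1Space G] (hB : IsBasis p ι) (hG : PP p G) (ρ : F →ₜ* G)
    (hρ : Topology.IsQuotientMap ρ) (r : F) (hr : ρ r = 1)
    (hker : ∀ w, ρ w = 1 → w ∈ (Subgroup.normalClosure {r}).topologicalClosure)
    {A : TopRep.{u} k G} (hA : Good A) (hAp : ∀ a : A, ∃ n : ℕ, p ^ n • a = 0) (x₁ : X)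
    (hT : Function.Surjective (hB.T hG hAp ρ x₁ r)) (n : ℕ) : Van A (n + 2) := by
  have := hA.disc
  refine van_of_four_term hA hA.coind (good_ZR hA ρ) hA.coind (relInj_coind A)
    (relInj_ZR hB hG hA hAp ρ) (relInj_coind A) (TopRep.ofHom A.ρ.coind₁ι) (delta hA ρ)
    (evalR hA ρ r) ?_ ?_ ?_ ?_ ?_ ?_ n
  · intro a ha
    exact congrArg (fun t : C(G, A) => t 1) ha
  · intro a
    refine Subtype.ext (ContinuousMap.ext fun x => ?_)
    exact sub_self a
  · intro b hb
    refine ⟨(b : C(G, A)) 1, ContinuousMap.ext fun z => ?_⟩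
    obtain ⟨u, rfl⟩ := hρ.surjective z
    have h1 : (b : C(G, A)) (1 * ρ u) - (b : C(G, A)) 1 = 0 :=
      congrArg (fun t : Zsub ρ A => t.1 (u, 1)) hb
    rw [one_mul] at h1
    exact (sub_eq_zero.1 h1).symm
  · intro a
    refine ContinuousMap.ext fun z => ?_
    rw [evalR_apply, delta_apply, hr, mul_one, sub_self]; rfl
  · intro c hc
    have hcoc := hA.isCoc c
    let S : Subgroup F := hcoc.zer ⊓ ρ.toMonoidHom.ker
    have hSn : S.Normal := ⟨fun w hw u => by
      have hw1 : ρ w = 1 := hw.2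
      refine ⟨fun z => ?_, ρ.toMonoidHom.normal_ker.conj_mem w hw.2 u⟩
      have hw2 : ∀ z, c.1 (w, z) = 0 := hw.1
      have hinv : ∀ u z, c.1 (u⁻¹, z) = -c.1 (u, z * (ρ u)⁻¹) := hcoc.inv
      change c.1 (u * w * u⁻¹, z) = 0
      rw [c.2, c.2, hw2, add_zero, hinv, map_mul, hw1, mul_one,
        mul_inv_cancel_right, add_neg_cancel]⟩
    have hSc : IsClosed (S : Set F) :=
      hcoc.isClosed_zer.inter (isClosed_singleton.preimage ρ.continuous)
    have hrS : r ∈ S := ⟨fun z => congrArg (fun t : C(G, A) => t z) hc, hr⟩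
    have hle : (Subgroup.normalClosure {r}).topologicalClosure ≤ S :=
      Subgroup.topologicalClosure_minimal _
        (Subgroup.normalClosure_le_normal (Set.singleton_subset_iff.2 hrS)) hSc
    have hz : ∀ w, ρ w = 1 → ∀ z, c.1 (w, z) = 0 := fun w hw => (hle (hker w hw)).1
    have hwd : ∀ u v, ρ u = ρ v → c.1 (u, 1) = c.1 (v, 1) := by
      intro u v huv
      have h1 : ρ (u⁻¹ * v) = 1 := by rw [map_mul, map_inv, huv, inv_mul_cancel]
      have h2 := c.2 u (u⁻¹ * v) 1
      rw [mul_inv_cancel_left, hz _ h1, add_zero] at h2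
      exact h2.symm
    let f : G → A := fun z => c.1 ((hρ.surjective z).choose, 1)
    have hf : ∀ u, f (ρ u) = c.1 (u, 1) := fun u => hwd _ _ (hρ.surjective (ρ u)).choose_spec
    have hfc : Continuous f := by
      rw [hρ.continuous_iff]
      have : f ∘ ρ = fun u => c.1 (u, 1) := funext hf
      rw [this]
      fun_prop
    refine ⟨(⟨f, hfc⟩ : C(G, A)), Subtype.ext (ContinuousMap.ext fun x => ?_)⟩
    obtain ⟨v, z⟩ := x
    obtain ⟨u, rfl⟩ := hρ.surjective z
    rw [delta_apply]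
    change f (ρ u * ρ v) - f (ρ u) = _
    rw [← map_mul, hf, hf, c.2, one_mul, add_sub_cancel_left]
  · intro b
    obtain ⟨φ, hφ⟩ := hT ⟨(b : C(G, A)), (IsLocallyConstant.iff_continuous _).2
      (b : C(G, A)).continuous⟩
    have hE := hB.E_spec hG hAp ρ x₁ φ
    refine ⟨hE.coc.toZ, ContinuousMap.ext fun z => ?_⟩
    exact congrArg (fun t : LocallyConstant G A => t z) hφ

omit hp [CompactSpace F] in
theorem IsBasis.exists_pair (hB : IsBasis p ι) (hna : ∃ a b : F, a * b ≠ b * a) :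
    ∃ x y : X, x ≠ y := by
  by_contra hcon
  push Not at hcon
  have := hB.proP.topGroup
  have := hB.proP.t2
  obtain ⟨a, b, hab⟩ := hna
  have hcl : ∀ t : F, IsClosed ((Subgroup.centralizer {t} : Subgroup F) : Set F) := by
    intro t
    have : ((Subgroup.centralizer {t} : Subgroup F) : Set F) = {u | t * u = u * t} := by
      ext u; simp [Subgroup.mem_centralizer_iff]
    rw [this]
    exact isClosed_eq (by fun_prop) (by fun_prop)
  have h1 : ∀ x u, ι x * u = u * ι x := fun x u =>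
    hB.gen (Subgroup.centralizer {ι x}) (hcl _)
      (fun y => by rw [hcon y x]; exact fun t ht => by rw [Set.mem_singleton_iff.1 ht]) u _ rfl
  exact hab (hB.gen (Subgroup.centralizer {a}) (hcl _)
    (fun y t ht => by rw [Set.mem_singleton_iff.1 ht, h1]) b a rfl)

omit [CompactSpace F] in
theorem IsBasis.exists_good_relator [IsTopologicalGroup F] (hB : IsBasis p ι)
    (hna : ∃ a b : F, a * b ≠ b * a) (g : F) (N : OpenNormalSubgroup F) :
    ∃ r : F, g⁻¹ * r ∈ N ∧ cd p (F ⧸ closedNormalClosure r) ≤ 2 := by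
  have := hB.proP.compact
  obtain ⟨x, y, hxy⟩ := hB.exists_pair hna
  obtain ⟨r, π, x₁, t, hrN, hπr, hπt, hne⟩ := hB.exists_relator hxy g N
  refine ⟨r, hrN, ?_⟩
  set R : Subgroup F := closedNormalClosure r with hR
  have hRc : IsClosed (R : Set F) := Subgroup.isClosed_topologicalClosure _
  let ρ : F →ₜ* F ⧸ R := ⟨QuotientGroup.mk' R, QuotientGroup.continuous_mk⟩
  have hρ : Topology.IsQuotientMap ρ := QuotientGroup.isQuotientMap_mk R
  have hrR : r ∈ R := Subgroup.le_topologicalClosure _ (Subgroup.subset_normalClosure rfl)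
  have hRπ : R ≤ π.toMonoidHom.ker :=
    Subgroup.topologicalClosure_minimal _
      (Subgroup.normalClosure_le_normal (Set.singleton_subset_iff.2 hπr))
      (isClosed_singleton.preimage π.continuous)
  let π' : F ⧸ R →ₜ* Multiplicative ℤ_[p] :=
    ⟨QuotientGroup.lift R π.toMonoidHom hRπ, hρ.continuous_iff.2 π.continuous⟩
  have hππ : π'.comp ρ = π := rfl
  obtain ⟨s, hs⟩ := exists_section hB.proP π t hπt
  have hG : PP p (F ⧸ R) := hB.proP.pp.quotient R
  refine sSup_le ?_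
  rintro _ ⟨n, rfl, A, ⟨hd, htor, hcont⟩, hnt⟩
  by_contra hlt
  have hn : 2 < n := by exact_mod_cast not_le.1 hlt
  obtain ⟨m, rfl⟩ : ∃ m, n = m + 2 + 1 := ⟨n - 3, by omega⟩
  have hT := hB.T_surj hG htor ρ π' (ρ.toContinuousMap.comp s) hs x₁ r (hππ ▸ hne)
  have hvan := van_of_relator hB hG ρ hρ r ((QuotientGroup.eq_one_iff r).2 hrR)
    (fun w hw => (QuotientGroup.eq_one_iff (N := R) w).1 hw) ⟨hd, hcont⟩ htor x₁ hT m
  exact not_subsingleton _ hvan.subsingleton

end Pool.Agent.MP_de7343_al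

end
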